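import Pool.Agent.Lib.MP_7f572a_co.Defs
set_option autoImplicit false
namespace Pool.Agent.CG

/-- `e → e'`: `A e ≤ A e'` but not `B e ≤ B e'`. -/
def AdjAB {P : Type} [PartialOrder P] {Ar : Type} (A B : Ar → P) (e e' : Ar) : Prop :=
  A e ≤ A e' ∧ ¬ B e ≤ B e'

private theorem blow_pad {P : Type} [PartialOrder P] {r : ℕ} (h : HasBdimLE P r) :
    ∃ (L : Fin (r + 1) → P → P → Prop) (φ : (Fin (r + 1) → Prop) → Prop),
      IsBooleanRealizer P L φ := by
  obtain ⟨L, φ, h1, h2⟩ := h
  refine ⟨Fin.cons (WellOrderingRel : P → P → Prop) L, fun v => φ (fun i => v i.succ), ?_, ?_⟩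
  · intro i
    refine Fin.cases ?_ (fun j => ?_) i
    · rw [Fin.cons_zero]
      infer_instance
    · rw [Fin.cons_succ]
      exact h1 j
  · intro x y hxy
    rw [h2 x y hxy]
    simp only [Fin.cons_succ]

private theorem blow_tri {P : Type} {R : P → P → Prop} (hR : IsStrictTotalOrder P R) {x y : P}
    (hxy : x ≠ y) (h : ¬ R x y) : R y x := by
  rcases trichotomous_of R x y with h1 | h1 | h1
  · exact absurd h1 h
  · exact absurd h1 hxy
  · exact h1

/-- JOB BLow.  Digraphs defined by few linear orders are `χ`-bounded.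

For every `r` there is `T` (depending on `r` only) such that: if `P` has a Boolean realizer with `r`
orders and there are no `e₁ → e₂ → e₃`, `e₁ → e₃`, then the digraph `AdjAB A B` has a proper colouring
with `T` colours.

Proof.  Replace `r` by `r + 1` (`L : Fin (r+1)`; pad with an arbitrary strict linear order as in
`HasBdimLE.mono` of BTest.lean, which you may import and use).  Let `L`, `φ` be a Boolean realizer with
`r + 1` orders.  Type of a pair: `τ e e' : Fin (r+1) → Prop × Prop`,
`τ e e' i = (L i (B e) (B e'), L i (B e') (B e))`.  The type set `Θ = Fin (r+1) → Prop × Prop` is finite;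
let `T = Nat.card (Set Θ)` (or `2 ^ Nat.card Θ`), which depends on `r` only.
Colour of `e`: the set of all `t : Θ` such that there is `e''` with `AdjAB A B e'' e` and `τ e'' e = t`.
Suppose `e → e'` and `e`, `e'` have the same colour.  Let `t = τ e e'`.  Then `t` is in the colour of
`e'`, hence of `e`: there is `e'' → e` with `τ e'' e = τ e e'`.  Then `A e'' ≤ A e ≤ A e'`.  From
`¬ B e'' ≤ B e` and `¬ B e ≤ B e'` we get `B e'' ≠ B e`, `B e ≠ B e'`.  Because the types are equal,
`L i (B e'') (B e) ↔ L i (B e) (B e')` for all `i`; transitivity and trichotomy give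
`L i (B e'') (B e') ↔ L i (B e) (B e')` for all `i`, and `B e'' ≠ B e'` (use `i = 0`: if `B e'' = B e'`
then `L 0 (B e'') (B e) ↔ L 0 (B e) (B e'')`, contradicting trichotomy/asymmetry).  As `¬ B e < B e'`,
`φ` is false at the pattern of `(B e, B e')`, which is the pattern of `(B e'', B e')`; so
`¬ B e'' ≤ B e'`.  Hence `e'' → e'`, and `e'' → e → e'` contradicts the hypothesis. -/
theorem bdim_color (r : ℕ) : ∃ T : ℕ, ∀ (P : Type) [PartialOrder P], HasBdimLE P r →
    ∀ (Ar : Type) (A B : Ar → P),
      (∀ e₁ e₂ e₃, ¬ (AdjAB A B e₁ e₂ ∧ AdjAB A B e₂ e₃ ∧ AdjAB A B e₁ e₃)) →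
      ∃ κ : Ar → Fin T, ∀ e e', AdjAB A B e e' → κ e ≠ κ e' := by
  refine ⟨Nat.card (Set (Fin (r + 1) → Prop × Prop)), fun P _ hP Ar A B hno => ?_⟩
  obtain ⟨L, φ, h1, h2⟩ := blow_pad hP
  let τ : Ar → Ar → (Fin (r + 1) → Prop × Prop) := fun e e' i =>
    (L i (B e) (B e'), L i (B e') (B e))
  let col : Ar → Set (Fin (r + 1) → Prop × Prop) := fun e =>
    {t | ∃ e'', AdjAB A B e'' e ∧ τ e'' e = t}
  refine ⟨fun e => Finite.equivFin (Set (Fin (r + 1) → Prop × Prop)) (col e), ?_⟩
  intro e e' hee hcol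
  have hc : col e = col e' := (Finite.equivFin _).injective hcol
  have hmem : τ e e' ∈ col e' := ⟨e, hee, rfl⟩
  rw [← hc] at hmem
  obtain ⟨e'', he'', hτ⟩ := hmem
  have hL1 : ∀ i, L i (B e'') (B e) = L i (B e) (B e') := fun i =>
    congrArg Prod.fst (congrFun hτ i)
  have hL2 : ∀ i, L i (B e) (B e'') = L i (B e') (B e) := fun i =>
    congrArg Prod.snd (congrFun hτ i)
  have hne1 : B e'' ≠ B e := fun h => he''.2 h.le
  have hne2 : B e ≠ B e' := fun h => hee.2 h.le
  have hL3 : ∀ i, L i (B e'') (B e') ↔ L i (B e) (B e') := by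
    intro i
    have hi := h1 i
    constructor
    · intro h
      by_contra hcon
      have a1 : L i (B e') (B e) := blow_tri hi hne2 hcon
      have a2 : L i (B e) (B e'') := by rw [hL2]; exact a1
      have a3 : L i (B e') (B e'') := _root_.trans a1 a2
      exact irrefl_of (L i) (B e') (_root_.trans a3 h)
    · intro h
      have a1 : L i (B e'') (B e) := by rw [hL1]; exact h
      exact _root_.trans a1 h
  have hne3 : B e'' ≠ B e' := by
    intro h
    have hi := h1 0
    by_cases hl : L 0 (B e'') (B e)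
    · have a1 : L 0 (B e) (B e') := by rw [← hL1]; exact hl
      rw [← h] at a1
      exact irrefl_of (L 0) (B e) (_root_.trans a1 hl)
    · have a2 : L 0 (B e) (B e'') := blow_tri hi hne1 hl
      have a3 : L 0 (B e) (B e') := by rw [← h]; exact a2
      exact hl (by rw [hL1]; exact a3)
  have hnle : ¬ B e'' ≤ B e' := by
    intro hle
    have hlt : B e'' < B e' := lt_of_le_of_ne hle hne3
    rw [h2 _ _ hne3] at hlt
    have heq : (fun i => L i (B e'') (B e')) = (fun i => L i (B e) (B e')) :=
      funext (fun i => propext (hL3 i))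
    rw [heq, ← h2 _ _ hne2] at hlt
    exact hee.2 hlt.le
  exact hno e'' e e' ⟨he'', hee, he''.1.trans hee.1, hnle⟩

end Pool.Agent.CG
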