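import Pool.Agent.Lib.MP_7f572a_co.Defs
set_option autoImplicit false
namespace Pool.Agent.CG

/-- JOB BTest (this file: 3 theorems).  Padding: a Boolean realizer with `d` orders gives one with
`d' ≥ d` orders (add copies of an arbitrary strict linear order of `P`, e.g. `WellOrderingRel`; the new
`φ` ignores the new coordinates). -/
theorem HasBdimLE.mono (P : Type) [PartialOrder P] (d d' : ℕ) (hd : d ≤ d') (h : HasBdimLE P d) :
    HasBdimLE P d' := by
  obtain ⟨L, φ, hL, hφ⟩ := h
  refine ⟨fun i => if hi : (i : ℕ) < d then L ⟨i, hi⟩ else WellOrderingRel,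
    fun ε => φ (fun j => ε (Fin.castLE hd j)), ?_, ?_⟩
  · intro i
    by_cases hi : (i : ℕ) < d
    · simp only [hi, dif_pos]
      exact hL _
    · simp only [hi, dif_neg, not_false_iff]
      infer_instance
  · intro x y hxy
    rw [hφ x y hxy]
    have : (fun i => L i x y) = (fun j : Fin d => (if hi : ((Fin.castLE hd j : Fin d') : ℕ) < d then
        L ⟨(Fin.castLE hd j : Fin d'), hi⟩ else WellOrderingRel) x y) := by
      funext j
      have hj : ((Fin.castLE hd j : Fin d') : ℕ) < d := j.2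
      simp only [hj, dif_pos]
      rfl
    rw [this]

/-- the two linear orders of a total preorder -/
def BTest_L {P : Type} (R : P → P → Prop) (ρ : P → P → Prop) (b : Bool) (x y : P) : Prop :=
  (R x y ∧ ¬ R y x) ∨ (R x y ∧ R y x ∧ (if b then ρ x y else ρ y x))

theorem BTest_sto {P : Type} (R : P → P → Prop) (ρ : P → P → Prop) [hρ : IsStrictTotalOrder P ρ]
    (htot : ∀ x y, R x y ∨ R y x) (htr : ∀ x y z, R x y → R y z → R x z) (b : Bool) :
    IsStrictTotalOrder P (BTest_L R ρ b) := by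
  have hirr : ∀ x, ¬ ρ x x := fun x => irrefl_of ρ x
  have htrans : ∀ x y z, ρ x y → ρ y z → ρ x z := fun x y z => trans_of ρ
  have htri : ∀ x y, ρ x y ∨ x = y ∨ ρ y x := fun x y => trichotomous_of ρ x y
  have key : (∀ x, ¬ BTest_L R ρ b x x) ∧
      (∀ x y z, BTest_L R ρ b x y → BTest_L R ρ b y z → BTest_L R ρ b x z) ∧
      (∀ x y, BTest_L R ρ b x y ∨ x = y ∨ BTest_L R ρ b y x) := by
    refine ⟨?_, ?_, ?_⟩
    · rintro x (⟨h1, h2⟩ | ⟨h1, h2, h3⟩)
      · exact h2 h1
      · cases b
        · exact hirr x (by simpa using h3)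
        · exact hirr x (by simpa using h3)
    · rintro x y z (⟨h1, h2⟩ | ⟨h1, h2, h3⟩) (⟨h1', h2'⟩ | ⟨h1', h2', h3'⟩)
      · exact Or.inl ⟨htr _ _ _ h1 h1', fun h => h2 (htr _ _ _ h1' h)⟩
      · exact Or.inl ⟨htr _ _ _ h1 h1', fun h => h2 (htr _ _ _ h1' h)⟩
      · exact Or.inl ⟨htr _ _ _ h1 h1', fun h => h2' (htr _ _ _ h h1)⟩
      · refine Or.inr ⟨htr _ _ _ h1 h1', htr _ _ _ h2' h2, ?_⟩
        cases b
        · simp only [Bool.false_eq_true, if_false] at h3 h3' ⊢
          exact htrans _ _ _ h3' h3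
        · simp only [if_true] at h3 h3' ⊢
          exact htrans _ _ _ h3 h3'
    · intro x y
      by_cases h1 : R x y
      · by_cases h2 : R y x
        · rcases htri x y with h | h | h
          · cases b
            · exact Or.inr (Or.inr (Or.inr ⟨h2, h1, by simpa using h⟩))
            · exact Or.inl (Or.inr ⟨h1, h2, by simpa using h⟩)
          · exact Or.inr (Or.inl h)
          · cases b
            · exact Or.inl (Or.inr ⟨h1, h2, by simpa using h⟩)
            · exact Or.inr (Or.inr (Or.inr ⟨h2, h1, by simpa using h⟩))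
        · exact Or.inl (Or.inl ⟨h1, h2⟩)
      · have h2 : R y x := (htot x y).resolve_left h1
        exact Or.inr (Or.inr (Or.inl ⟨h2, h1⟩))
  have i1 : Std.Irrefl (BTest_L R ρ b) := ⟨key.1⟩
  have i2 : IsTrans P (BTest_L R ρ b) := ⟨key.2.1⟩
  have i3 : Std.Trichotomous (BTest_L R ρ b) := ⟨fun x y h1 h2 => by
    rcases key.2.2 x y with h | h | h
    · exact absurd h h1
    · exact h
    · exact absurd h h2⟩
  exact {}

theorem BTest_iff {P : Type} (R : P → P → Prop) (ρ : P → P → Prop) [hρ : IsStrictTotalOrder P ρ]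
    (htot : ∀ x y, R x y ∨ R y x) (x y : P) (hxy : x ≠ y) :
    (R x y ↔ (BTest_L R ρ true x y ∨ BTest_L R ρ false x y)) ∧
    (R y x ↔ ¬ (BTest_L R ρ true x y ∧ BTest_L R ρ false x y)) := by
  have htri : ρ x y ∨ x = y ∨ ρ y x := trichotomous_of ρ x y
  have hasym : ρ x y → ¬ ρ y x := fun h h' => irrefl_of ρ x (trans_of ρ h h')
  have htri' : ρ x y ∨ ρ y x := by tauto
  have h0 := htot x y
  unfold BTest_L
  simp only [if_true, Bool.false_eq_true, if_false]
  constructor <;> tauto

/-- Tests.  Let `R i` (`i : ι`, `ι` finite) be total preorders of `P` such that whether `x < y` holds for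
`x ≠ y` depends only on the truth values of `R i x y`, `R i y x` (`i : ι`).  Then `P` has a Boolean
realizer with `2 * card ι` orders.

Proof.  Fix a strict linear order `ρ` of `P`.  For `i : ι` and a sign `+`/`-` let
`L (i,+) x y := (R i x y ∧ ¬ R i y x) ∨ (R i x y ∧ R i y x ∧ ρ x y)` and
`L (i,-) x y := (R i x y ∧ ¬ R i y x) ∨ (R i x y ∧ R i y x ∧ ρ y x)`: strict linear orders.  For
`x ≠ y`: `R i x y` holds iff `L (i,+) x y ∨ L (i,-) x y`, and `R i y x` holds iff
`¬ (L (i,+) x y ∧ L (i,-) x y)`.  So the pattern of `(x,y)` in the `L`'s determines all `R i x y`,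
`R i y x`; take `φ ε := ∃ x y, x ≠ y ∧ x < y ∧ ε = pattern of (x,y)`.  (Index the orders by
`ι × Bool ≃ Fin (2 * card ι)`.) -/
theorem bdim_test (P : Type) [PartialOrder P] (ι : Type) [Fintype ι] (R : ι → P → P → Prop)
    (htot : ∀ i x y, R i x y ∨ R i y x) (htr : ∀ i x y z, R i x y → R i y z → R i x z)
    (h : ∀ x y x' y' : P, x ≠ y → x' ≠ y' →
      (∀ i, (R i x y ↔ R i x' y') ∧ (R i y x ↔ R i y' x')) → x < y → x' < y') :
    HasBdimLE P (2 * Fintype.card ι) := by
  set ρ : P → P → Prop := WellOrderingRel with hρ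
  have hcard : Fintype.card (ι × Bool) = 2 * Fintype.card ι := by
    rw [Fintype.card_prod, Fintype.card_bool, mul_comm]
  set e : Fin (2 * Fintype.card ι) ≃ ι × Bool :=
    (finCongr hcard.symm).trans (Fintype.equivFin (ι × Bool)).symm with he
  refine ⟨fun j => BTest_L (R (e j).1) ρ (e j).2,
    fun ε => ∃ x y, x ≠ y ∧ x < y ∧ ε = fun j => BTest_L (R (e j).1) ρ (e j).2 x y, ?_, ?_⟩
  · intro j
    exact BTest_sto _ _ (htot _) (htr _) _
  · intro x y hxy
    constructor
    · intro hlt
      exact ⟨x, y, hxy, hlt, rfl⟩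
    · rintro ⟨x', y', hne, hlt, heq⟩
      apply h x' y' x y hne hxy ?_ hlt
      intro i
      have h1 := BTest_iff (R i) ρ (htot i) x y hxy
      have h2 := BTest_iff (R i) ρ (htot i) x' y' hne
      have h3 : ∀ b, BTest_L (R i) ρ b x y ↔ BTest_L (R i) ρ b x' y' := by
        intro b
        have h4 := congrFun heq (e.symm (i, b))
        simp only [Equiv.apply_symm_apply] at h4
        exact iff_of_eq h4
      rw [h1.1, h1.2, h2.1, h2.2, h3 true, h3 false]
      exact ⟨Iff.rfl, Iff.rfl⟩

/-- Every finite set system has some Boolean realizer: `bdim_test` with `ι = V` and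
`R v E E' := (v ∈ E → v ∈ E')`. -/
theorem bdim_exists {V : Type} [Fintype V] (C : Set (Set V)) :
    HasBdimLE ↥C (2 * Fintype.card V) := by
  apply bdim_test ↥C V (fun v E E' => v ∈ E.1 → v ∈ E'.1)
  · intro v x y
    tauto
  · intro v x y z h h'
    exact fun h1 => h' (h h1)
  · intro x y x' y' hne hne' hiff hlt
    have h1 : x'.1 ⊆ y'.1 := by
      intro v hv
      exact (hiff v).1.mp (fun h => hlt.le h) hv
    exact lt_of_le_of_ne h1 hne'

end Pool.Agent.CG
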