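import Pool.Agent.Lib.MP_7f572a_co.Geo
set_option autoImplicit false
namespace Pool.Agent.CG

variable {V : Type} {d : ℕ} {α : Type} [LinearOrder α] [OrderBot α]

/-- JOB BUpB.  The criterion.  `In g c v` (`g` in a finite set of groups): the box `v` belongs to the chain number
`g` at the point `c`.  For closed sets `E`, `E'` with `sp E ≤ sp E'`, and keys `key g E` as in
`exists_key` (for `S = {v | In g (sp E) v}`): `E ⊆ E'` iff for no `g` the list `key g E` is a proper
prefix of `key g E'`.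

Proof.  Suppose `v ∈ E \ E'`.  By `box_of_not_le` and `I4` there is `g` with `In g (sp E) v` and
`In g (sp E') v`.  By (3) `key g E` is a prefix of `path v`, by (1) `path v` is a proper prefix of
`key g E'`.  So `key g E` is a proper prefix of `key g E'`.
Conversely let `key g E` be a proper prefix of `key g E'`.  In the second case of (2) for `E`, `m` is an
entry of `key g E`, hence a non-last entry of `key g E'`; but all non-last entries of `key g E'` are
`< m` (both cases of (2)); contradiction.  So `key g E = path v₀`, `v₀ ∈ E`.  If `key g E' = path v₁`,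
`v₁ ∈ E'`, `In g (sp E') v₁`: then `v₀` is an ancestor of `v₁`, so `In g (sp E') v₀` by `I2`; if `v₀ ∈ E'`
then (3) gives that `key g E' = path v₁` is a prefix of `path v₀`, contradiction.  So `v₀ ∉ E'`.  If
`key g E' = l ++ [m]`: `path v₀` is a prefix of `l` (it does not contain `m`, it is nonempty), so
`l = path v₁`, `v₁ ∈ S`, and `v₀ = v₁` or `v₀` is an ancestor of `v₁`; so `In g (sp E') v₀` and
`v₀ ∉ E'` because no element of `S` is in `E'`. -/
theorem le_iff_keys [Finite V] (F : BoxFam V d α) (γ : Type) (m : ℕ)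
    (path : V → List ℕ) (hp0 : ∀ v, path v ≠ []) (hpm : ∀ v, ∀ x ∈ path v, x < m)
    (hinj : Function.Injective path) (hanc : ∀ u v, F.anc u v ↔ (path u <+: path v ∧ u ≠ v))
    (In : γ → (Fin d → α) → V → Prop)
    (I1 : ∀ g c v, In g c v → F.InBox c v)
    (I2 : ∀ g c u v, In g c v → F.anc u v → In g c u)
    (I3 : ∀ g c u v, In g c u → In g c v → path u <+: path v ∨ path v <+: path u)
    (I4 : ∀ c c' v, c ≤ c' → F.InBox c v → F.InBox c' v → ∃ g, In g c v ∧ In g c' v)
    (key : γ → Set V → List ℕ)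
    (hk : ∀ g, ∀ E ∈ F.closed, (∀ v, In g (F.sp E) v → v ∉ E → path v <+: key g E ∧ path v ≠ key g E) ∧
      ((∃ v₀, In g (F.sp E) v₀ ∧ v₀ ∈ E ∧ key g E = path v₀) ∨
        ((∀ v, In g (F.sp E) v → v ∉ E) ∧ ∃ l : List ℕ, key g E = l ++ [m] ∧ (∀ x ∈ l, x < m) ∧
          (l = [] ∨ ∃ v₁, In g (F.sp E) v₁ ∧ l = path v₁))) ∧
      (∀ v, In g (F.sp E) v → v ∈ E → key g E <+: path v))
    (E E' : Set V) (hE : E ∈ F.closed) (hE' : E' ∈ F.closed) (hs : F.sp E ≤ F.sp E') :
    E ⊆ E' ↔ ∀ g, ¬ (key g E <+: key g E' ∧ key g E ≠ key g E') := by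
  constructor
  · intro hEE g hg
    obtain ⟨hp, hne⟩ := hg
    obtain ⟨-, h2, -⟩ := hk g E hE
    obtain ⟨-, h2', h3'⟩ := hk g E' hE'
    rcases h2 with ⟨v₀, -, hv₀E, hkey⟩ | ⟨-, l, hkey, -, -⟩
    · rcases h2' with ⟨v₁, hin₁, -, hkey'⟩ | ⟨hno, l, hkey', -, hl⟩
      · rw [hkey, hkey'] at hp hne
        have hanc' : F.anc v₀ v₁ := (hanc v₀ v₁).2 ⟨hp, fun h => hne (by rw [h])⟩
        have hin₀ := I2 g _ v₀ v₁ hin₁ hanc'
        have h4 := h3' v₀ hin₀ (hEE hv₀E)
        rw [hkey'] at h4
        exact hne (hp.eq_of_length_le h4.length_le)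
      · rw [hkey, hkey'] at hp hne
        rcases List.prefix_concat_iff.1 hp with h4 | h4
        · exact hne h4
        · rcases hl with hl | ⟨v₁, hin₁, hl⟩
          · rw [hl, List.prefix_nil] at h4
            exact hp0 v₀ h4
          · rw [hl] at h4
            by_cases h5 : v₀ = v₁
            · exact hno v₁ hin₁ (h5 ▸ hEE hv₀E)
            · exact hno v₀ (I2 g _ v₀ v₁ hin₁ ((hanc v₀ v₁).2 ⟨h4, h5⟩)) (hEE hv₀E)
    · obtain ⟨t, ht⟩ := hp
      rcases h2' with ⟨v₁, -, -, hkey'⟩ | ⟨-, l', hkey', hlt', -⟩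
      · have h4 : m ∈ path v₁ := by
          rw [← hkey', ← ht, hkey]
          simp
        exact lt_irrefl _ (hpm v₁ m h4)
      · have htne : t ≠ [] := by
          intro h
          rw [h, List.append_nil] at ht
          exact hne ht
        have h6 : m ∈ l' := by
          have h7 : (l ++ [m]) ++ t = l' ++ [m] := by rw [← hkey, ht, hkey']
          obtain ⟨t', a, rfl⟩ : ∃ (t' : List ℕ) (a : ℕ), t = t' ++ [a] :=
            ⟨t.dropLast, t.getLast htne, (List.dropLast_append_getLast htne).symm⟩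
          rw [← List.append_assoc] at h7
          have h8 := (List.append_inj_left' h7 rfl)
          rw [← h8]
          simp
        exact lt_irrefl _ (hlt' m h6)
  · intro hall
    by_contra hcon
    obtain ⟨v, hv, hv'⟩ := Set.not_subset.1 hcon
    obtain ⟨hb, hb'⟩ := box_of_not_le F E E' hE' hs v hv hv'
    obtain ⟨g, hg, hg'⟩ := I4 _ _ v hs hb hb'
    obtain ⟨-, -, h3⟩ := hk g E hE
    obtain ⟨h1', -, -⟩ := hk g E' hE'
    have h4 := h3 v hg hv
    obtain ⟨h5, h6⟩ := h1' v hg' hv'
    refine hall g ⟨h4.trans h5, fun h => h6 ?_⟩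
    rw [h] at h4
    exact h5.eq_of_length_le h4.length_le

end Pool.Agent.CG
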