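import Pool.Agent.Lib.MP_7f572a_co.BUpA
import Pool.Agent.Lib.MP_7f572a_co.BUpB
import Pool.Agent.Lib.MP_7f572a_co.BTest
set_option autoImplicit false
namespace Pool.Agent.CG

variable {V : Type} {d : ℕ} {α : Type} [LinearOrder α] [OrderBot α]

/-- JOB BUp.  Upper bound for the Boolean dimension.  Proof: `exists_key` (the absent vertices on the chain are
closed under smaller ones by `valid_sp`, `I1`, `hanc`) and `le_iff_keys`; then `bdim_test` with
`ι = Fin d ⊕ (γ × Bool)` and the total preorders `sp E k ≤ sp E' k`, `key g E ≤ key g E'`,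
`(key g E).map (m - ·) ≤ (key g E').map (m - ·)` (`proper_prefix_iff`); `E ⊆ E'` implies
`sp E ≤ sp E'` (`sp_mono`). -/
theorem bdim_up [Finite V] (F : BoxFam V d α) (γ : Type) [Fintype γ] (m : ℕ)
    (path : V → List ℕ) (hp0 : ∀ v, path v ≠ []) (hpm : ∀ v, ∀ x ∈ path v, x < m)
    (hinj : Function.Injective path) (hanc : ∀ u v, F.anc u v ↔ (path u <+: path v ∧ u ≠ v))
    (In : γ → (Fin d → α) → V → Prop)
    (I1 : ∀ g c v, In g c v → F.InBox c v)
    (I2 : ∀ g c u v, In g c v → F.anc u v → In g c u)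
    (I3 : ∀ g c u v, In g c u → In g c v → path u <+: path v ∨ path v <+: path u)
    (I4 : ∀ c c' v, c ≤ c' → F.InBox c v → F.InBox c' v → ∃ g, In g c v ∧ In g c' v) :
    HasBdimLE ↥F.closed (2 * (d + 2 * Fintype.card γ)) := by
  have hex : ∀ (g : γ) (E : Set V), ∃ key : List ℕ, E ∈ F.closed → (∀ x ∈ key, x ≤ m) ∧
      (∀ v, In g (F.sp E) v → v ∉ E → path v <+: key ∧ path v ≠ key) ∧
      ((∃ v₀, In g (F.sp E) v₀ ∧ v₀ ∈ E ∧ key = path v₀) ∨
        ((∀ v, In g (F.sp E) v → v ∉ E) ∧ ∃ l : List ℕ, key = l ++ [m] ∧ (∀ x ∈ l, x < m) ∧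
          (l = [] ∨ ∃ v₁, In g (F.sp E) v₁ ∧ l = path v₁))) ∧
      (∀ v, In g (F.sp E) v → v ∈ E → key <+: path v) := by
    intro g E
    by_cases hE : E ∈ F.closed
    · obtain ⟨key, h1, h2, h3, h4⟩ := exists_key m path hpm hinj {v | In g (F.sp E) v} E
        (fun u hu v hv => I3 g _ u v hu hv)
        (by
          intro u hu v hv huv hvE
          by_cases h : u = v
          · rw [h]
            exact hvE
          · have h1 := (hanc u v).mpr ⟨huv, h⟩
            exact ((valid_sp F E hE).2 v (I1 g _ v hv).1 hvE).2 u h1)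
      exact ⟨key, fun _ => ⟨h1, h2, h3, h4⟩⟩
    · exact ⟨[], fun h => absurd h hE⟩
  choose key hkey using hex
  have hk := le_iff_keys F γ m path hp0 hpm hinj hanc In I1 I2 I3 I4 key
    (fun g E hE => (hkey g E hE).2)
  set R : Fin d ⊕ (γ × Bool) → ↥F.closed → ↥F.closed → Prop :=
    fun i X Y => Sum.elim (fun k => F.sp X.1 k ≤ F.sp Y.1 k)
      (fun gb => if gb.2 then (key gb.1 X.1).map (fun x => m - x) ≤ (key gb.1 Y.1).map (fun x => m - x)
        else key gb.1 X.1 ≤ key gb.1 Y.1) i with hRdef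
  have hR0 : ∀ k X Y, R (Sum.inl k) X Y ↔ F.sp X.1 k ≤ F.sp Y.1 k := fun _ _ _ => Iff.rfl
  have hR1 : ∀ g X Y, R (Sum.inr (g, false)) X Y ↔ key g X.1 ≤ key g Y.1 := by
    intro g X Y
    simp [hRdef]
  have hR2 : ∀ g X Y, R (Sum.inr (g, true)) X Y ↔
      (key g X.1).map (fun x => m - x) ≤ (key g Y.1).map (fun x => m - x) := by
    intro g X Y
    simp [hRdef]
  have hmain := bdim_test ↥F.closed (Fin d ⊕ (γ × Bool)) R
    (by
      intro i X Y
      rcases i with k | ⟨g, b⟩
      · simp only [hR0]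
        exact le_total _ _
      · cases b
        · simp only [hR1]
          exact le_total _ _
        · simp only [hR2]
          exact le_total _ _)
    (by
      intro i X Y Z
      rcases i with k | ⟨g, b⟩
      · simp only [hR0]
        exact le_trans
      · cases b
        · simp only [hR1]
          exact le_trans
        · simp only [hR2]
          exact le_trans)
    (by
      intro X Y X' Y' hne hne' hiff hlt
      have hsub : X.1 ⊆ Y.1 := hlt.le
      have hsp : F.sp X.1 ≤ F.sp Y.1 := sp_mono F _ _ hsub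
      have hsp' : F.sp X'.1 ≤ F.sp Y'.1 := by
        intro k
        exact (hiff (Sum.inl k)).1.mp (hsp k)
      have h1 := (hk X.1 Y.1 X.2 Y.2 hsp).mp hsub
      have h2 : X'.1 ⊆ Y'.1 := by
        rw [hk X'.1 Y'.1 X'.2 Y'.2 hsp']
        intro g hg
        apply h1 g
        rw [proper_prefix_iff m _ _ (hkey g _ X'.2).1 (hkey g _ Y'.2).1] at hg
        rw [proper_prefix_iff m _ _ (hkey g _ X.2).1 (hkey g _ Y.2).1]
        have a1 := hiff (Sum.inr (g, false))
        have a2 := hiff (Sum.inr (g, true))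
        rw [hR1, hR1, hR1, hR1] at a1
        rw [hR2, hR2, hR2, hR2] at a2
        constructor
        · rw [lt_iff_le_not_ge, a1.1, a1.2, ← lt_iff_le_not_ge]
          exact hg.1
        · rw [lt_iff_le_not_ge, a2.1, a2.2, ← lt_iff_le_not_ge]
          exact hg.2
      exact lt_of_le_of_ne h2 hne')
  have hc : Fintype.card (Fin d ⊕ (γ × Bool)) = d + 2 * Fintype.card γ := by
    rw [Fintype.card_sum, Fintype.card_fin, Fintype.card_prod, Fintype.card_bool]
    ring
  rw [hc] at hmain
  exact hmain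

end Pool.Agent.CG
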