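import Pool.Agent.Lib.MP_7f572a_co.Defs
set_option autoImplicit false
namespace Pool.Agent.CG

/-- JOB BUpA (this file: 2 theorems).  Lexicographic order of lists (`List.instLinearOrder`; a proper
prefix is smaller; `List.cons_lt_cons_iff`).  If all entries are `≤ m`, then `u` is a proper prefix of `v`
iff `u < v` and `u' < v'`, where `'` is the order reversing substitution `x ↦ m - x`.  Induction on
`u`, `v`. -/
theorem proper_prefix_iff (m : ℕ) (u v : List ℕ) (hu : ∀ x ∈ u, x ≤ m) (hv : ∀ x ∈ v, x ≤ m) :
    (u <+: v ∧ u ≠ v) ↔ (u < v ∧ u.map (fun x => m - x) < v.map (fun x => m - x)) := by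
  induction u generalizing v with
  | nil =>
    cases v with
    | nil => simp
    | cons b v' => simp [List.nil_lt_cons]
  | cons a u' ih =>
    cases v with
    | nil => simp [List.not_lt_nil]
    | cons b v' =>
      have ha : a ≤ m := hu a (by simp)
      have hb : b ≤ m := hv b (by simp)
      have ih' := ih v' (fun x hx => hu x (by simp [hx])) (fun x hx => hv x (by simp [hx]))
      rw [List.cons_prefix_cons, List.map_cons, List.map_cons, List.cons_lt_cons_iff,
        List.cons_lt_cons_iff]
      constructor
      · rintro ⟨⟨hab, hp⟩, hne⟩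
        subst hab
        have h2 : u' ≠ v' := fun h => hne (by rw [h])
        have h3 := ih'.1 ⟨hp, h2⟩
        exact ⟨Or.inr ⟨rfl, h3.1⟩, Or.inr ⟨rfl, h3.2⟩⟩
      · rintro ⟨h1, h2⟩
        have hab : a = b := by
          rcases h1 with h1 | h1
          · rcases h2 with h2 | h2
            · omega
            · omega
          · exact h1.1
        subst hab
        have h3 : u' < v' := by
          rcases h1 with h1 | h1
          · exact absurd h1 (lt_irrefl _)
          · exact h1.2
        have h4 : u'.map (fun x => m - x) < v'.map (fun x => m - x) := by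
          rcases h2 with h2 | h2
          · exact absurd h2 (lt_irrefl _)
          · exact h2.2
        have h5 := ih'.2 ⟨h3, h4⟩
        refine ⟨⟨rfl, h5.1⟩, fun h => h5.2 ?_⟩
        exact (List.cons.inj h).2

/-- The key of a chain.  `S` is a finite chain of vertices (any two paths are comparable for the prefix
relation), the set of the absent vertices (`v ∈ S`, `v ∉ E`) is closed under passing to smaller elements
of `S`.  Then there is a list `key` (entries `≤ m`) such that
(1) `path v` is a proper prefix of `key` for the absent `v ∈ S`;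
(2) either `key = path v₀` with `v₀ ∈ S ∩ E` (the shortest present vertex), or no element of `S` is in
`E` and the last entry of `key` is `m` (`key = path v₁ ++ [m]`, `v₁ ∈ S` longest, or `[m]` if `S` is
empty), all entries except the last one are `< m`;
(3) for every `v ∈ S ∩ E`, `key` is a prefix of `path v`. -/
theorem exists_key {V : Type} [Finite V] (m : ℕ) (path : V → List ℕ)
    (hpm : ∀ v, ∀ x ∈ path v, x < m) (hinj : Function.Injective path) (S E : Set V)
    (hch : ∀ u ∈ S, ∀ v ∈ S, path u <+: path v ∨ path v <+: path u)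
    (habs : ∀ u ∈ S, ∀ v ∈ S, path u <+: path v → v ∉ E → u ∉ E) :
    ∃ key : List ℕ, (∀ x ∈ key, x ≤ m) ∧ (∀ v ∈ S, v ∉ E → path v <+: key ∧ path v ≠ key) ∧
      ((∃ v₀ ∈ S, v₀ ∈ E ∧ key = path v₀) ∨
        ((∀ v ∈ S, v ∉ E) ∧ ∃ l : List ℕ, key = l ++ [m] ∧ (∀ x ∈ l, x < m) ∧
          (l = [] ∨ ∃ v₁ ∈ S, l = path v₁))) ∧
      (∀ v ∈ S, v ∈ E → key <+: path v) := by
  by_cases hSE : (S ∩ E).Nonempty
  · obtain ⟨v₀, hv₀, hmin⟩ := Set.exists_min_image (S ∩ E) (fun v => (path v).length)
      (Set.toFinite _) hSE
    refine ⟨path v₀, fun x hx => (hpm v₀ x hx).le, ?_, Or.inl ⟨v₀, hv₀.1, hv₀.2, rfl⟩, ?_⟩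
    · intro v hv hvE
      refine ⟨?_, ?_⟩
      · rcases hch v hv v₀ hv₀.1 with h | h
        · exact h
        · exact absurd hv₀.2 (habs v₀ hv₀.1 v hv h hvE)
      · intro h
        exact hvE (hinj h ▸ hv₀.2)
    · intro v hv hvE
      rcases hch v₀ hv₀.1 v hv with h | h
      · exact h
      · have h2 := hmin v ⟨hv, hvE⟩
        rw [h.eq_of_length_le h2]
  · have hno : ∀ v ∈ S, v ∉ E := fun v hv hvE => hSE ⟨v, hv, hvE⟩
    rcases S.eq_empty_or_nonempty with hS | hS
    · refine ⟨[m], by simp, ?_, Or.inr ⟨hno, [], by simp, by simp, Or.inl rfl⟩, ?_⟩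
      · intro v hv
        rw [hS] at hv
        exact absurd hv (Set.notMem_empty v)
      · intro v hv
        rw [hS] at hv
        exact absurd hv (Set.notMem_empty v)
    · obtain ⟨v₁, hv₁, hmax⟩ := Set.exists_max_image S (fun v => (path v).length)
        (Set.toFinite _) hS
      refine ⟨path v₁ ++ [m], ?_, ?_, Or.inr ⟨hno, path v₁, rfl, hpm v₁, Or.inr ⟨v₁, hv₁, rfl⟩⟩, ?_⟩
      · intro x hx
        rcases List.mem_append.1 hx with h | h
        · exact (hpm v₁ x h).le
        · rw [List.mem_singleton.1 h]
      · intro v hv _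
        have hp : path v <+: path v₁ := by
          rcases hch v hv v₁ hv₁ with h | h
          · exact h
          · rw [h.eq_of_length_le (hmax v hv)]
        refine ⟨hp.trans (List.prefix_append _ _), fun h => ?_⟩
        have h1 := hp.length_le
        rw [h] at h1
        simp at h1
      · intro v hv hvE
        exact absurd hvE (hno v hv)

end Pool.Agent.CG
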