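import Pool.Agent.Lib.MP_7f572a_co.Defs
set_option autoImplicit false
namespace Pool.Agent.CG

/-! # Convex geometries of boxes: definitions.
`V` is the (finite) set of boxes `[a v, b v]` in `α^d` (product order), `anc` a forest order on `V`
(`anc u v`: `u` is a proper ancestor of `v`). -/

structure BoxFam (V : Type) (d : ℕ) (α : Type) [LinearOrder α] [OrderBot α] where
  a : V → Fin d → α
  b : V → Fin d → α
  anc : V → V → Prop
  a_inj : ∀ k u v, a u k = a v k → u = v
  a_pos : ∀ v k, a v k ≠ ⊥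
  anc_a : ∀ u v, anc u v → a u ≤ a v
  anc_irrefl : ∀ u, ¬ anc u u
  anc_trans : ∀ u v w, anc u v → anc v w → anc u w

variable {V : Type} {d : ℕ} {α : Type} [LinearOrder α] [OrderBot α]

/-- the point `c` lies in the box `v` -/
def BoxFam.InBox (F : BoxFam V d α) (c : Fin d → α) (v : V) : Prop := F.a v ≤ c ∧ c ≤ F.b v

/-- `E` is the orthant set `{v | a v ≤ c}` minus a set `J` of boxes containing `c`, where `J` contains
with every box its ancestors. -/
def BoxFam.Valid (F : BoxFam V d α) (c : Fin d → α) (E : Set V) : Prop :=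
  (∀ v ∈ E, F.a v ≤ c) ∧ ∀ v, F.a v ≤ c → v ∉ E → (c ≤ F.b v ∧ ∀ u, F.anc u v → u ∉ E)

/-- the closed sets -/
def BoxFam.closed (F : BoxFam V d α) : Set (Set V) := {E | ∃ c, F.Valid c E}

/-- the join of the lower corners of the boxes in `E` -/
noncomputable def BoxFam.sp [Finite V] (F : BoxFam V d α) (E : Set V) : Fin d → α :=
  fun k => (Set.toFinite E).toFinset.sup (fun v => F.a v k)

/-- Tie breaking: raw data `a0`, `b0` in a linear order `β`. -/
structure RawFam (V : Type) (d : ℕ) (β : Type) [LinearOrder β] where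
  m : ℕ
  e : V ≃ Fin m
  a0 : V → Fin d → β
  b0 : V → Fin d → β
  anc : V → V → Prop
  anc_a0 : ∀ u v, anc u v → ∀ k, a0 u k < a0 v k
  anc_irrefl : ∀ u, ¬ anc u u
  anc_trans : ∀ u v w, anc u v → anc v w → anc u w

/-- the tie-broken coordinate of a raw coordinate -/
def tb {β : Type} (y : β) (r : ℕ) : WithBot (β ×ₗ ℕ) := ((toLex (y, r) : β ×ₗ ℕ) : WithBot (β ×ₗ ℕ))

/-- back to the raw coordinate -/
def pr {β : Type} (c : WithBot (β ×ₗ ℕ)) : WithBot β := c.map (fun p => (ofLex p).1)

end Pool.Agent.CG
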