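import Mathlib
set_option autoImplicit false
namespace Pool.Agent.CG

/-! # Boolean dimension and local dimension of convex geometries (MP_7f572a_co): definitions -/

/-- A convex geometry on the set `X` (used for finite `X`). -/
structure IsConvexGeometry {X : Type} (C : Set (Set X)) : Prop where
  empty_mem : (∅ : Set X) ∈ C
  univ_mem : (Set.univ : Set X) ∈ C
  inter_mem : ∀ A ∈ C, ∀ B ∈ C, A ∩ B ∈ C
  ext_mem : ∀ A ∈ C, A ≠ Set.univ → ∃ x, x ∉ A ∧ insert x A ∈ C

/-- `L 0, …, L (d-1)` and `φ` form a Boolean realizer of `P`: every `L i` is a strict linear order of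
the ground set of `P` (not necessarily a linear extension), and for distinct `x`, `y` we have `x < y`
iff `φ` is true at the vector of the truth values of the statements `x < y in L i`. -/
def IsBooleanRealizer (P : Type) [PartialOrder P] {d : ℕ} (L : Fin d → P → P → Prop)
    (φ : (Fin d → Prop) → Prop) : Prop :=
  (∀ i, IsStrictTotalOrder P (L i)) ∧ ∀ x y, x ≠ y → (x < y ↔ φ (fun i => L i x y))

/-- `P` has a Boolean realizer with `d` linear orders. -/
def HasBdimLE (P : Type) [PartialOrder P] (d : ℕ) : Prop :=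
  ∃ (L : Fin d → P → P → Prop) (φ : (Fin d → Prop) → Prop), IsBooleanRealizer P L φ

/-- Boolean dimension. -/
noncomputable def bdim (P : Type) [PartialOrder P] : ℕ := sInf {d | HasBdimLE P d}

/-- A partial linear extension (ple) of `P`: a subset `carrier` of `P` together with a strict linear
order `lt` of `carrier` which extends the order of `P` on `carrier`. -/
@[ext] structure PLE (P : Type) [PartialOrder P] where
  carrier : Set P
  lt : P → P → Prop
  lt_mem : ∀ x y, lt x y → x ∈ carrier ∧ y ∈ carrier
  irrefl : ∀ x, ¬ lt x x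
  trans : ∀ x y z, lt x y → lt y z → lt x z
  total : ∀ x ∈ carrier, ∀ y ∈ carrier, x ≠ y → lt x y ∨ lt y x
  ext_lt : ∀ x ∈ carrier, ∀ y ∈ carrier, x < y → lt x y

/-- local realizers -/
structure IsLocalRealizer {P : Type} [PartialOrder P] (R : Set (PLE P)) : Prop where
  comp : ∀ x y, x < y → ∃ L ∈ R, L.lt x y
  incomp : ∀ x y, ¬ x ≤ y → ¬ y ≤ x → (∃ L ∈ R, L.lt x y) ∧ ∃ L ∈ R, L.lt y x

/-- `P` has a local realizer in which every element of `P` lies in at most `d` ples. -/
def HasLdimLE (P : Type) [PartialOrder P] (d : ℕ) : Prop :=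
  ∃ R : Set (PLE P), IsLocalRealizer R ∧ ∀ x, {L ∈ R | x ∈ L.carrier}.encard ≤ d

/-- Local dimension. -/
noncomputable def ldim (P : Type) [PartialOrder P] : ℕ := sInf {d | HasLdimLE P d}

end Pool.Agent.CG
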