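import Pool.Agent.Lib.MP_7f572a_co.Box
set_option autoImplicit false
namespace Pool.Agent.CG

variable {V : Type} {d : ℕ} {α : Type} [LinearOrder α] [OrderBot α]

/-- JOB Geo (this file: 6 theorems).  `Finset.le_sup`. -/
theorem le_sp [Finite V] (F : BoxFam V d α) (E : Set V) (v : V) (hv : v ∈ E) : F.a v ≤ F.sp E := by
  intro k
  unfold BoxFam.sp
  exact Finset.le_sup (f := fun v => F.a v k) ((Set.toFinite E).mem_toFinset.2 hv)

/-- `Finset.sup_le` (also used for: `sp` is the least upper bound). -/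
theorem sp_le [Finite V] (F : BoxFam V d α) (E : Set V) (c : Fin d → α) (h : ∀ v ∈ E, F.a v ≤ c) :
    F.sp E ≤ c := by
  intro k
  unfold BoxFam.sp
  exact Finset.sup_le fun v hv => h v ((Set.toFinite E).mem_toFinset.1 hv) k

theorem sp_mono [Finite V] (F : BoxFam V d α) (E E' : Set V) (h : E ⊆ E') : F.sp E ≤ F.sp E' :=
  sp_le F E _ fun v hv => le_sp F E' v (h hv)

/-- A closed set is valid at the point `sp E`: if `E` is valid at `c` then `sp E ≤ c`, so
`a v ≤ sp E` implies `a v ≤ c`, and `sp E ≤ c ≤ b v`. -/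
theorem valid_sp [Finite V] (F : BoxFam V d α) (E : Set V) (h : E ∈ F.closed) :
    F.Valid (F.sp E) E := by
  obtain ⟨c, hc⟩ := h
  have h1 : F.sp E ≤ c := sp_le F E c hc.1
  refine ⟨fun v hv => le_sp F E v hv, fun v hv hvE => ?_⟩
  obtain ⟨h2, h3⟩ := hc.2 v (hv.trans h1) hvE
  exact ⟨h1.trans h2, h3⟩

/-- Comparison of closed sets: if `E ⊄ E'` and `sp E ≤ sp E'`, there is `v ∈ E \ E'`, and both `sp E`
and `sp E'` lie in the box `v` (`a v ≤ sp E ≤ sp E' ≤ b v` by `valid_sp` for `E'`). -/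
theorem box_of_not_le [Finite V] (F : BoxFam V d α) (E E' : Set V) (h' : E' ∈ F.closed)
    (hs : F.sp E ≤ F.sp E') (v : V) (hv : v ∈ E) (hv' : v ∉ E') :
    F.InBox (F.sp E) v ∧ F.InBox (F.sp E') v := by
  have h1 := le_sp F E v hv
  have h2 := ((valid_sp F E' h').2 v (h1.trans hs) hv').1
  exact ⟨⟨h1, hs.trans h2⟩, ⟨h1.trans hs, h2⟩⟩

/-- The closed sets form a convex geometry.
* `∅`: valid at `c = ⊥` (`a v k ≠ ⊥` and `Fin d` is nonempty, so no `a v ≤ ⊥`).
* `univ`: valid at `c = sp univ`.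
* intersection: if `E` is valid at `c` and `E'` at `c'`, then `E ∩ E'` is valid at `c ⊓ c'`.
* extension: let `E ≠ univ` be valid at `c`, `J = {v | a v ≤ c, v ∉ E}`.
  If `J ≠ ∅` take `v ∈ J` with no `v' ∈ J`, `anc v v'` (finite set, `anc` is irreflexive and
  transitive); then `insert v E` is valid at `c`.
  If `J = ∅`: choose `w ∉ E` such that `c ⊔ a w` is minimal (product order) in the finite nonempty set
  `{c ⊔ a v | v ∉ E}`; put `c' = c ⊔ a w`.  If `v ∉ E` and `a v ≤ c'` then `c ⊔ a v ≤ c'`, so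
  `c ⊔ a v = c'`; as `¬ a w ≤ c`, some `k` has `c k < c' k`, hence `a v k = c' k = a w k`, `v = w`.
  So `{v | a v ≤ c'} = insert w E`, and `insert w E` is valid at `c'`. -/
theorem closed_convexGeometry [Finite V] (F : BoxFam V d α) (hd : 0 < d) :
    IsConvexGeometry F.closed := by
  constructor
  · refine ⟨fun _ => ⊥, fun v hv => hv.elim, fun v hv _ => ?_⟩
    exact absurd (le_bot_iff.1 (hv ⟨0, hd⟩)) (F.a_pos v ⟨0, hd⟩)
  · exact ⟨F.sp Set.univ, fun v hv => le_sp F _ v hv, fun v _ hv => absurd (Set.mem_univ v) hv⟩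
  · rintro A ⟨c, hc⟩ B ⟨c', hc'⟩
    refine ⟨c ⊓ c', fun v hv => le_inf (hc.1 v hv.1) (hc'.1 v hv.2), fun v hv hvn => ?_⟩
    by_cases hA : v ∈ A
    · have hB : v ∉ B := fun h => hvn ⟨hA, h⟩
      obtain ⟨h1, h2⟩ := hc'.2 v (hv.trans inf_le_right) hB
      exact ⟨inf_le_right.trans h1, fun u hu huAB => h2 u hu huAB.2⟩
    · obtain ⟨h1, h2⟩ := hc.2 v (hv.trans inf_le_left) hA
      exact ⟨inf_le_left.trans h1, fun u hu huAB => h2 u hu huAB.1⟩
  · rintro E ⟨c, hc⟩ hE
    by_cases hJ : ∃ v, F.a v ≤ c ∧ v ∉ E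
    · have : IsTrans V (fun x y => F.anc y x) := ⟨fun x y z h1 h2 => F.anc_trans _ _ _ h2 h1⟩
      have : Std.Irrefl (fun x y => F.anc y x) := ⟨fun x => F.anc_irrefl x⟩
      have hwf : WellFounded (fun x y => F.anc y x) :=
        Finite.wellFounded_of_trans_of_irrefl _
      obtain ⟨v, hv, hmin⟩ := hwf.has_min {v | F.a v ≤ c ∧ v ∉ E} hJ
      refine ⟨v, hv.2, c, ?_, ?_⟩
      · intro w hw
        rcases hw with rfl | hw
        · exact hv.1
        · exact hc.1 w hw
      · intro w hw hwn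
        have hwE : w ∉ E := fun h => hwn (Or.inr h)
        obtain ⟨h1, h2⟩ := hc.2 w hw hwE
        refine ⟨h1, fun u hu hui => ?_⟩
        rcases hui with rfl | hui
        · exact hmin w ⟨hw, hwE⟩ hu
        · exact h2 u hu hui
    · push Not at hJ
      have hne : ∃ v, v ∉ E := by
        by_contra h
        push Not at h
        exact hE (Set.eq_univ_of_forall h)
      obtain ⟨w, hw, hmin⟩ := Set.Finite.exists_minimalFor (fun v => c ⊔ F.a v) {v | v ∉ E}
        (Set.toFinite _) hne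
      have hwE : w ∉ E := hw
      have key : ∀ v, F.a v ≤ c ⊔ F.a w → v ∉ E → v = w := by
        intro v hv hvE
        have h1 : c ⊔ F.a v ≤ c ⊔ F.a w := sup_le le_sup_left hv
        have h2 : c ⊔ F.a w ≤ c ⊔ F.a v := hmin hvE h1
        have h3 : ¬ F.a w ≤ c := fun h => hwE (hJ w h)
        rw [Pi.le_def] at h3
        push Not at h3
        obtain ⟨k, hk⟩ := h3
        have h4 : F.a w k ≤ max (c k) (F.a v k) := by
          have := h2 k
          exact le_sup_right.trans this
        have h5 : F.a v k ≤ max (c k) (F.a w k) := hv k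
        rw [max_eq_right hk.le] at h5
        have h6 : F.a w k ≤ F.a v k := by
          rcases le_max_iff.1 h4 with h | h
          · exact absurd h (not_le.2 hk)
          · exact h
        exact F.a_inj k v w (le_antisymm h5 h6)
      refine ⟨w, hwE, c ⊔ F.a w, ?_, ?_⟩
      · intro v hv
        rcases hv with rfl | hv
        · exact le_sup_right
        · exact (hc.1 v hv).trans le_sup_left
      · intro v hv hvn
        have hvE : v ∉ E := fun h => hvn (Or.inr h)
        exact absurd (Or.inl (key v hv hvE)) hvn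

end Pool.Agent.CG
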