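import Pool.Agent.Lib.MP_7f572a_co.Defs
set_option autoImplicit false
namespace Pool.Agent.CG

theorem LLow_conflict {P : Type} [PartialOrder P] (L : PLE P) (e1 x1 e2 x2 : P)
    (h1 : L.lt e1 x1) (h2 : L.lt e2 x2) (h12 : x1 ≤ e2) (h21 : x2 ≤ e1) : False := by
  have c1 := L.lt_mem _ _ h1
  have c2 := L.lt_mem _ _ h2
  have a : L.lt e1 e2 := by
    rcases eq_or_lt_of_le h12 with h | h
    · rw [← h]
      exact h1
    · exact L.trans _ _ _ h1 (L.ext_lt _ c1.2 _ c2.1 h)
  have b : L.lt e2 e1 := by
    rcases eq_or_lt_of_le h21 with h | h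
    · rw [← h]
      exact h2
    · exact L.trans _ _ _ h2 (L.ext_lt _ c2.2 _ c1.1 h)
  exact L.irrefl _ (L.trans _ _ _ a b)

/-- ples containing some `x u`, `u` a nonempty prefix of `w` -/
def LLow_Old {P : Type} [PartialOrder P] {n : ℕ} (R : Set (PLE P)) (x : List (Fin n) → P)
    (w : List (Fin n)) : Set (PLE P) :=
  {L | L ∈ R ∧ ∃ u : List (Fin n), u ≠ [] ∧ u <+: w ∧ x u ∈ L.carrier}

theorem LLow_card {P : Type} [PartialOrder P] {n d : ℕ} (R : Set (PLE P)) (x : List (Fin n) → P)
    (hm : ∀ y, {L ∈ R | y ∈ L.carrier}.encard ≤ d) (w : List (Fin n)) :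
    (LLow_Old R x w).encard ≤ (d * w.length : ℕ) := by
  induction w using List.reverseRecOn with
  | nil =>
    have : LLow_Old R x [] = ∅ := by
      ext L
      simp only [LLow_Old, Set.mem_ofPred_eq, Set.mem_empty_iff_false, iff_false]
      rintro ⟨_, u, hu, hu', _⟩
      exact hu (List.prefix_nil.mp hu')
    rw [this]
    simp
  | append_singleton w i ih =>
    have h1 : LLow_Old R x (w ++ [i]) ⊆ LLow_Old R x w ∪ {L ∈ R | x (w ++ [i]) ∈ L.carrier} := by
      rintro L ⟨hL, u, hu, hu', hx⟩
      rcases List.prefix_concat_iff.mp hu' with h | h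
      · right
        subst h
        exact ⟨hL, hx⟩
      · left
        exact ⟨hL, u, hu, h, hx⟩
    calc (LLow_Old R x (w ++ [i])).encard
        ≤ (LLow_Old R x w ∪ {L ∈ R | x (w ++ [i]) ∈ L.carrier}).encard := Set.encard_le_encard h1
      _ ≤ (LLow_Old R x w).encard + ({L ∈ R | x (w ++ [i]) ∈ L.carrier}).encard :=
          Set.encard_union_le _ _
      _ ≤ (d * w.length : ℕ) + (d : ℕ∞) := add_le_add ih (hm _)
      _ = (d * (w ++ [i]).length : ℕ) := by
          rw [List.length_append, List.length_singleton, mul_add, mul_one]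
          push_cast
          rfl

/-- JOB LLow.  Lower bound for the local dimension (tree argument).

`x u` (`u` a nonempty sequence over `Fin n`) and `E s` (`|s| = N`) are elements of `P` with
(hα) `¬ x u ≤ E s` for every nonempty prefix `u` of `s`; (hβ) `x (w ++ [i]) ≤ E s` if `s` extends
`w ++ [j]` and `i`, `j` are adjacent.

Proof.  Let `R` be a local realizer with multiplicities `≤ d`.  For `u` let `RR u = {L ∈ R | x u ∈
L.carrier}` (finite, `encard ≤ d`), `Old w = ⋃` of `RR u` over the nonempty prefixes `u` of `w` (finite,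
`ncard ≤ d * |w|`).
Step: for `|w| < N` there is `i` such that `¬ L.lt (E s) (x (w ++ [i]))` for all `L ∈ Old w` and all `s`
with `|s| = N` extending `w ++ [i]`.  Otherwise choose for every `i` a ple `L i ∈ Old w` and `s i`
extending `w ++ [i]` with `L i` putting `E (s i)` below `x (w ++ [i])`.  If `Arc i j` and
`L i = L j = L`: `x (w ++ [i]) ≤ E (s j)` and `x (w ++ [j]) ≤ E (s i)` by (hβ), so in `L` (a linear
extension on its carrier) `E (s i) < x (w++[i]) ≤ E (s j) < x (w++[j]) ≤ E (s i)`, contradiction.  So
`L` followed by an injection of the finite set `Old w` into `ℕ` is a proper colouring; its range has at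
most `ncard (Old w) ≤ d * |w| ≤ d * N < k` elements, contradicting `hcol`.
By induction on `m ≤ N` there is `w`, `|w| = m`, such that for every prefix `w' ++ [i]` of `w`, every `s`
with `|s| = N` extending `w' ++ [i]` and all `L ∈ Old w'`: `¬ L.lt (E s) (x (w' ++ [i]))`.  For `m = N`
put `s = w`, `u_m = s.take m` (`1 ≤ m ≤ N`).  By (hα) and the definition of a local realizer there is
`L_m ∈ R` with `L_m.lt (E s) (x u_m)` (if `E s < x u_m` by `comp`, otherwise by `incomp`).  Then
`L_m ∉ Old (s.take (m-1))`, while `L_{m'} ∈ RR u_{m'} ⊆ Old (s.take (m-1))` for `m' < m`.  So the `N`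
ples `L_m` are different, and all of them contain `E s`; hence `N ≤ d`. -/
theorem ldim_low (P : Type) [PartialOrder P] (n N k d : ℕ) (Arc : Fin n → Fin n → Prop)
    (hcol : ∀ f : Fin n → ℕ, (∀ i j, Arc i j → f i ≠ f j) → k ≤ (Set.range f).ncard)
    (x E : List (Fin n) → P)
    (hα : ∀ s u : List (Fin n), s.length = N → u ≠ [] → u <+: s → ¬ x u ≤ E s)
    (hβ : ∀ (w s : List (Fin n)) (i j : Fin n), (Arc i j ∨ Arc j i) → s.length = N →
      (w ++ [j]) <+: s → x (w ++ [i]) ≤ E s)
    (hd : HasLdimLE P d) (hk : d * N < k) : N ≤ d := by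
  obtain ⟨R, hR, hm⟩ := hd
  have hcard : ∀ w : List (Fin n), (LLow_Old R x w).encard ≤ (d * w.length : ℕ) :=
    fun w => LLow_card R x hm w
  have hfin : ∀ w : List (Fin n), (LLow_Old R x w).Finite := by
    intro w
    apply Set.finite_of_encard_le_coe (hcard w)
  have hstep : ∀ w : List (Fin n), w.length < N → ∃ i, ∀ L ∈ LLow_Old R x w,
      ∀ s : List (Fin n), s.length = N → (w ++ [i]) <+: s → ¬ L.lt (E s) (x (w ++ [i])) := by
    intro w hw
    by_contra hcon
    push Not at hcon
    choose Lf hL sf hlen hpre hlt using hcon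
    obtain ⟨g, hg⟩ := Set.countable_iff_exists_injOn.mp (hfin w).countable
    have hprop : ∀ i j, Arc i j → g (Lf i) ≠ g (Lf j) := by
      intro i j hij heq
      have h1 : Lf i = Lf j := hg (hL i) (hL j) heq
      have h2 := hlt i
      have h3 := hlt j
      rw [h1] at h2
      exact LLow_conflict (Lf j) _ _ _ _ h2 h3
        (hβ w (sf j) i j (Or.inl hij) (hlen j) (hpre j))
        (hβ w (sf i) j i (Or.inr hij) (hlen i) (hpre i))
    have h4 := hcol (fun i => g (Lf i)) hprop
    have h5 : Set.range (fun i => g (Lf i)) ⊆ g '' LLow_Old R x w := by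
      rintro _ ⟨i, rfl⟩
      exact ⟨Lf i, hL i, rfl⟩
    have h6 : (Set.range (fun i => g (Lf i))).ncard ≤ (LLow_Old R x w).ncard :=
      (Set.ncard_le_ncard h5 ((hfin w).image g)).trans (Set.ncard_image_le (hfin w))
    have h7 : (LLow_Old R x w).ncard ≤ d * w.length := by
      have h8 := hcard w
      rw [← (hfin w).cast_ncard_eq] at h8
      exact_mod_cast h8
    have h9 : d * w.length ≤ d * N := Nat.mul_le_mul_left d hw.le
    omega
  have hind : ∀ m, m ≤ N → ∃ w : List (Fin n), w.length = m ∧ ∀ (w' : List (Fin n)) (i : Fin n),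
      (w' ++ [i]) <+: w → ∀ L ∈ LLow_Old R x w', ∀ s : List (Fin n), s.length = N →
        (w' ++ [i]) <+: s → ¬ L.lt (E s) (x (w' ++ [i])) := by
    intro m
    induction m with
    | zero =>
      intro _
      refine ⟨[], rfl, ?_⟩
      intro w' i h
      have := List.prefix_nil.mp h
      simp at this
    | succ m ih =>
      intro hmN
      obtain ⟨w, hw, hw'⟩ := ih (by omega)
      obtain ⟨i0, hi0⟩ := hstep w (by omega)
      refine ⟨w ++ [i0], by simp [hw], ?_⟩
      intro w' i h
      rcases List.prefix_concat_iff.mp h with h1 | h1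
      · obtain ⟨h2, h3⟩ := List.append_inj' h1 rfl
        subst h2
        have h4 : i = i0 := by simpa using h3
        subst h4
        exact hi0
      · exact hw' w' i h1
  obtain ⟨s, hs, hs'⟩ := hind N le_rfl
  have hex : ∀ m : Fin N, ∃ L ∈ R, L.lt (E s) (x (s.take (m + 1))) := by
    intro m
    have h1 : s.take (m + 1) ≠ [] := by
      intro h
      have h2 := congrArg List.length h
      rw [List.length_take, List.length_nil] at h2
      have := m.2
      omega
    have h2 := hα s (s.take (m + 1)) hs h1 (List.take_prefix _ _)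
    by_cases h3 : E s ≤ x (s.take (m + 1))
    · exact hR.comp _ _ (lt_of_le_not_ge h3 h2)
    · exact (hR.incomp _ _ h2 h3).2
  choose Lm hLR hLlt using hex
  have key : ∀ m' m : Fin N, m' < m → Lm m' ≠ Lm m := by
    intro m' m hlt heq
    have hm2 : (m : ℕ) < s.length := by
      rw [hs]
      exact m.2
    have h1 : s.take (m + 1) = s.take m ++ [s[(m : ℕ)]] := (List.take_append_getElem hm2).symm
    have h2 : Lm m ∈ LLow_Old R x (s.take m) := by
      refine ⟨hLR m, s.take (m' + 1), ?_, ?_, ?_⟩
      · intro h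
        have h2 := congrArg List.length h
        rw [List.length_take, List.length_nil] at h2
        have := m.2
        omega
      · have h3 : s.take (m' + 1) = (s.take m).take (m' + 1) := by
          rw [List.take_take]
          congr 1
          have : (m' : ℕ) < m := hlt
          omega
        rw [h3]
        exact List.take_prefix _ _
      · rw [← heq]
        exact ((Lm m').lt_mem _ _ (hLlt m')).2
    have h3 := hs' (s.take m) (s[(m : ℕ)]) (by rw [← h1]; exact List.take_prefix _ _) (Lm m) h2 s hs
      (by rw [← h1]; exact List.take_prefix _ _)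
    rw [← h1] at h3
    exact h3 (hLlt m)
  have hinj : Function.Injective Lm := by
    intro m' m h
    rcases lt_trichotomy m' m with h1 | h1 | h1
    · exact absurd h (key _ _ h1)
    · exact h1
    · exact absurd h.symm (key _ _ h1)
  have hsub : Set.range Lm ⊆ {L ∈ R | E s ∈ L.carrier} := by
    rintro _ ⟨m, rfl⟩
    exact ⟨hLR m, ((Lm m).lt_mem _ _ (hLlt m)).1⟩
  have h1 : (Set.range Lm).encard = N := by
    rw [← Set.image_univ, hinj.encard_image, Set.encard_univ]
    simp
  have h2 := (Set.encard_le_encard hsub).trans (hm (E s))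
  rw [h1] at h2
  exact_mod_cast h2

end Pool.Agent.CG
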