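import Pool.Agent.Lib.MP_7f572a_co.Geo
set_option autoImplicit false
namespace Pool.Agent.CG

variable {V : Type} {d : ℕ} {α : Type} [LinearOrder α] [OrderBot α]

private lemma LUp_le_lt {P : Type} [PartialOrder P] {x y : P} (h : x < y) :
    (toLinearExtension x : LinearExtension P) < toLinearExtension y := by
  refine lt_of_le_of_ne (toLinearExtension.monotone h.le) ?_
  intro h2
  exact h.ne h2

/-- the ple given by a set and a key function (ties are broken by a fixed linear extension) -/
private noncomputable def LUp_ple {P : Type} [PartialOrder P] {β : Type} [LinearOrder β]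
    (S : Set P) (f : P → β) (hf : ∀ x y, x ≤ y → f x ≤ f y) : PLE P where
  carrier := S
  lt x y := x ∈ S ∧ y ∈ S ∧ (f x < f y ∨ f x = f y ∧
    (toLinearExtension x : LinearExtension P) < toLinearExtension y)
  lt_mem x y h := ⟨h.1, h.2.1⟩
  irrefl x h := by
    rcases h.2.2 with h1 | h1
    · exact lt_irrefl _ h1
    · exact lt_irrefl _ h1.2
  trans x y z h h' := by
    refine ⟨h.1, h'.2.1, ?_⟩
    rcases h.2.2 with h1 | h1 <;> rcases h'.2.2 with h2 | h2
    · exact Or.inl (h1.trans h2)
    · exact Or.inl (h2.1 ▸ h1)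
    · exact Or.inl (h1.1 ▸ h2)
    · exact Or.inr ⟨h1.1.trans h2.1, h1.2.trans h2.2⟩
  total x hx y hy hxy := by
    rcases lt_trichotomy (f x) (f y) with h | h | h
    · exact Or.inl ⟨hx, hy, Or.inl h⟩
    · rcases lt_trichotomy (toLinearExtension x : LinearExtension P) (toLinearExtension y) with
        h1 | h1 | h1
      · exact Or.inl ⟨hx, hy, Or.inr ⟨h, h1⟩⟩
      · exact absurd h1 hxy
      · exact Or.inr ⟨hy, hx, Or.inr ⟨h.symm, h1⟩⟩
    · exact Or.inr ⟨hy, hx, Or.inl h⟩
  ext_lt x hx y hy h := by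
    refine ⟨hx, hy, ?_⟩
    rcases (hf x y h.le).lt_or_eq with h1 | h1
    · exact Or.inl h1
    · exact Or.inr ⟨h1, LUp_le_lt h⟩

/-- JOB LUp.  Upper bound for the local dimension: `d` global linear extensions and one ple for every
box.

Let `P = ↥F.closed`, `le : P →o LinearExtension P` (`toLinearExtension`, injective: it is the identity).
Helper: a set `S` of elements of `P` and a function `κ : P → β` into a linear order which is injective
and satisfies `κ x < κ y` for `x < y` in `S` gives the ple with carrier `S` and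
`lt x y := x ∈ S ∧ y ∈ S ∧ κ x < κ y`.
* for `k : Fin d`: carrier `univ`, `κ E = (sp E k, le E) : α ×ₗ LinearExtension P` (`sp_mono`);
* for `v : V`: carrier `{E | InBox (sp E) v}`, `κ E = (v ∈ E, le E) : Bool ×ₗ LinearExtension P` or
  `Prop ×ₗ …` or `ℕ ×ₗ …` (sets without `v` first).
Local realizer: for `x y` with `¬ x ≤ y` we find a member with `y` below `x`: if `¬ sp x ≤ sp y` there
is `k` with `sp y k < sp x k`; otherwise take `v ∈ x \ y` and use `box_of_not_le`: the ple of `v` puts
`y` (without `v`) below `x` (with `v`).  For `x < y` apply this to `¬ y ≤ x`.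
Multiplicity: the set of members containing `E` is the image of `{k} ∪ {v | InBox (sp E) v}`, so
`encard ≤ d + ω` (`Set.encard_image_le`, `Set.encard_union_le`). -/
theorem ldim_up [Finite V] (F : BoxFam V d α) (ω : ℕ)
    (h : ∀ c, {v | F.InBox c v}.encard ≤ ω) : HasLdimLE ↥F.closed (d + ω) := by
  classical
  set A : Fin d → PLE ↥F.closed := fun k => LUp_ple Set.univ (fun E => F.sp E.1 k)
    (fun x y hxy => sp_mono F x.1 y.1 hxy k) with hA
  have hBm : ∀ (v : V) (x y : ↥F.closed), x ≤ y →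
      (if v ∈ x.1 then 1 else 0 : ℕ) ≤ (if v ∈ y.1 then 1 else 0 : ℕ) := by
    intro v x y hxy
    by_cases h1 : v ∈ x.1
    · rw [if_pos h1, if_pos (hxy h1)]
    · rw [if_neg h1]
      exact Nat.zero_le _
  set B : V → PLE ↥F.closed := fun v => LUp_ple {E | F.InBox (F.sp E.1) v}
    (fun E => (if v ∈ E.1 then 1 else 0 : ℕ)) (hBm v) with hB
  have key : ∀ x y : ↥F.closed, ¬ x ≤ y → ∃ L ∈ Set.range A ∪ Set.range B, L.lt y x := by
    intro x y hxy
    by_cases hs : F.sp x.1 ≤ F.sp y.1
    · have h1 : ∃ v, v ∈ x.1 ∧ v ∉ y.1 := by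
        by_contra hcon
        push Not at hcon
        exact hxy hcon
      obtain ⟨v, hv, hv'⟩ := h1
      obtain ⟨h2, h3⟩ := box_of_not_le F x.1 y.1 y.2 hs v hv hv'
      refine ⟨B v, Or.inr ⟨v, rfl⟩, h3, h2, Or.inl ?_⟩
      change (if v ∈ y.1 then 1 else 0 : ℕ) < (if v ∈ x.1 then 1 else 0 : ℕ)
      rw [if_neg hv', if_pos hv]
      exact Nat.zero_lt_one
    · rw [Pi.le_def] at hs
      push Not at hs
      obtain ⟨k, hk⟩ := hs
      exact ⟨A k, Or.inl ⟨k, rfl⟩, Set.mem_univ _, Set.mem_univ _, Or.inl hk⟩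
  refine ⟨Set.range A ∪ Set.range B, ⟨?_, ?_⟩, ?_⟩
  · intro x y hxy
    exact key y x (not_le_of_gt hxy)
  · intro x y h1 h2
    exact ⟨key y x h2, key x y h1⟩
  · intro x
    have hsub : {L | L ∈ Set.range A ∪ Set.range B ∧ x ∈ L.carrier} ⊆
        A '' Set.univ ∪ B '' {v | F.InBox (F.sp x.1) v} := by
      rintro L ⟨hL | hL, hx⟩
      · obtain ⟨k, rfl⟩ := hL
        exact Or.inl ⟨k, Set.mem_univ _, rfl⟩
      · obtain ⟨v, rfl⟩ := hL
        exact Or.inr ⟨v, hx, rfl⟩
    calc {L | L ∈ Set.range A ∪ Set.range B ∧ x ∈ L.carrier}.encard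
        ≤ (A '' Set.univ ∪ B '' {v | F.InBox (F.sp x.1) v}).encard := Set.encard_le_encard hsub
      _ ≤ (A '' Set.univ).encard + (B '' {v | F.InBox (F.sp x.1) v}).encard :=
          Set.encard_union_le _ _
      _ ≤ (Set.univ : Set (Fin d)).encard + {v | F.InBox (F.sp x.1) v}.encard :=
          add_le_add (Set.encard_image_le _ _) (Set.encard_image_le _ _)
      _ ≤ (d : ℕ∞) + ω := by
          refine add_le_add ?_ (h _)
          rw [Set.encard_univ]
          simp
      _ = ((d + ω : ℕ) : ℕ∞) := by push_cast; rfl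

end Pool.Agent.CG
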