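import Pool.Agent.Lib.MP_7f572a_co.RecA
set_option autoImplicit false
namespace Pool.Agent.CG

private theorem recB_aff {c d x y : ℝ} (hd : 0 < d) (h : x < y) : c + d * x < c + d * y := by
  have := mul_lt_mul_of_pos_left h hd
  linarith

/-- JOB RecB (this file: 1 theorem; use `strip_bounds`, `strip_disj` of RecA.lean).  The new probes are
good.  Write `U = stripU R p q`, `W = stripW R p q`; the strip `[U, U+W]` lies inside `(u p, v p)`.
* `huv`, `hs`: `strip_bounds`, `GapGood`.
* lower probe `(p,q,false)`, members: inner `(p,j)`, `j ∈ M q`: `y0' = u p + (v p - u p) y0 j < U`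
  since `y0 j < u q`; `v' = U + 3/8 W < U + W < y1'`; `h' = s p + ε/4 h j < s p + ε/4 s q < z1'`.
  Outer `j ∈ M p`: `y0 j < u p < U`, `v' < v p < y1 j`, `h j < s p < s'`,
  `s' = s p + ε/4 s q < s p + ε p < z1 j` (`gap`).
* lower probe, non-members: outer `j ∉ M p`: `nmem`; inner `(p,j)`, `j ∉ M q`: `nmem` scaled; inner
  `(p',j)`, `p' ≠ p`: `y`-disjoint; new `(p,q)`: `v' = U + 3/8 W < U + 5/8 W`; new `(p',q') ≠ (p,q)`:
  `strip_disj`.
* upper probe `(p,q,true)`, members: new `(p,q)`: `U + 5/8 W < U + 11/16 W`, `U + 13/16 W < U + 7/8 W`,
  `h' = s p + 3/8 ε < s' = s p + ε/2 < z1' = s p + 3/4 ε`; outer `j ∈ M p` as before.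
* upper probe, non-members: outer `j ∉ M p`: `z1 j < s p < s'` or `y`-disjoint; inner `(p,j)` (all `j`):
  `z1' < s p + ε/4 < s'`; inner `(p',j)`: `y`-disjoint; new `(p',q') ≠ (p,q)`: `strip_disj`.
* `disj`: `strip_disj`, and `U + 3/8 W < U + 11/16 W` for the two probes of the same pair. -/
theorem step_probeGood {V P : Type} (B : Boxes V) (R : Probes V P) (ε : P → ℝ) (hB : B.Good)
    (hR : ProbeGood B R) (hε : GapGood B R ε) : ProbeGood (stepB B R ε) (stepR R ε) := by
  have hd : ∀ p, 0 < R.v p - R.u p := fun p => by
    obtain ⟨p1, p2, p3⟩ := hR.huv p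
    linarith
  have he4 : ∀ p, 0 < ε p / 4 := fun p => by
    have := hε.pos p
    linarith
  have hy0 : ∀ p j, R.u p < R.u p + (R.v p - R.u p) * B.y0 j := fun p j => by
    have := mul_pos (hd p) (hB.hy j).1
    linarith
  have hy01 : ∀ p j, R.u p + (R.v p - R.u p) * B.y0 j < R.u p + (R.v p - R.u p) * B.y1 j :=
    fun p j => recB_aff (hd p) (hB.hy j).2.1
  have hy1 : ∀ p j, R.u p + (R.v p - R.u p) * B.y1 j < R.v p := fun p j => by
    have := mul_lt_mul_of_pos_left (hB.hy j).2.2 (hd p)
    linarith
  -- level of the lower probe
  have hsl : ∀ p q, R.s p < R.s p + ε p / 4 * R.s q ∧ R.s p + ε p / 4 * R.s q < R.s p + ε p / 4 := by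
    intro p q
    have h1 := mul_pos (he4 p) (hR.hs q).1
    have h2 := mul_lt_mul_of_pos_left (hR.hs q).2 (he4 p)
    constructor <;> linarith
  constructor
  · rintro ⟨⟨p, q⟩, b⟩
    obtain ⟨p1, p2, p3⟩ := hR.huv p
    obtain ⟨a1, a2, a3, a4⟩ := strip_bounds B R hR p q
    cases b <;> simp only [stepR, if_true, Bool.false_eq_true, if_false] <;>
      refine ⟨by linarith, by linarith, by linarith⟩
  · rintro ⟨⟨p, q⟩, b⟩
    have h1 := (hR.hs p).1
    have h2 := hε.lt_one p
    have h3 := hε.pos p
    have h4 := hsl p q
    cases b <;> simp only [stepR, if_true, Bool.false_eq_true, if_false] <;>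
      constructor <;> linarith
  · rintro ⟨⟨p, q⟩, b⟩ w hw
    obtain ⟨p1, p2, p3⟩ := hR.huv p
    obtain ⟨a1, a2, a3, a4⟩ := strip_bounds B R hR p q
    have h3 := hε.pos p
    have h4 := hsl p q
    rcases hw with ⟨j, hj, rfl⟩ | hw
    · -- outer members
      obtain ⟨m1, m2, m3, m4⟩ := hR.mem p j hj
      have h5 := hε.gap p j m4
      cases b <;> simp only [stepR, stepB, Sum.elim_inl, if_true, Bool.false_eq_true, if_false] <;>
        refine ⟨by linarith, by linarith, by linarith, by linarith⟩
    · cases b
      · simp only [Bool.false_eq_true, if_false] at hw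
        obtain ⟨j, hj, rfl⟩ := hw
        obtain ⟨m1, m2, m3, m4⟩ := hR.mem q j hj
        have e1 := mul_lt_mul_of_pos_left m1 (hd p)
        have e2 := mul_lt_mul_of_pos_left m2 (hd p)
        simp only [stepR, stepB, Sum.elim_inl, Sum.elim_inr, Bool.false_eq_true, if_false]
        refine ⟨?_, ?_, recB_aff (he4 p) m3, recB_aff (he4 p) m4⟩
        · unfold stripU at *
          linarith
        · linarith
      · simp only [if_true] at hw
        subst hw
        simp only [stepR, stepB, Sum.elim_inr, if_true]
        refine ⟨by linarith, by linarith, by linarith, by linarith⟩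
  · rintro ⟨⟨p, q⟩, b⟩ w hw
    obtain ⟨p1, p2, p3⟩ := hR.huv p
    obtain ⟨a1, a2, a3, a4⟩ := strip_bounds B R hR p q
    have h3 := hε.pos p
    have h4 := hsl p q
    rcases w with j | ⟨p', j⟩ | ⟨p', q'⟩
    · -- outer non-members
      have hj : j ∉ R.M p := fun h0 => hw (Or.inl ⟨j, h0, rfl⟩)
      rcases hR.nmem p j hj with h | h | h
      · left
        cases b <;> simp only [stepR, stepB, Sum.elim_inl, if_true, Bool.false_eq_true, if_false] <;>
          linarith
      · right; left
        cases b <;> simp only [stepR, stepB, Sum.elim_inl, if_true, Bool.false_eq_true, if_false] <;>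
          linarith
      · right; right
        cases b <;> simp only [stepR, stepB, Sum.elim_inl, if_true, Bool.false_eq_true, if_false] <;>
          linarith
    · -- inner
      have b1 := hy0 p' j
      have b2 := hy1 p' j
      by_cases hp : p = p'
      · subst hp
        cases b
        · have hj : j ∉ R.M q := fun h0 => hw (Or.inr (by
            simp only [Bool.false_eq_true, if_false]
            exact ⟨j, h0, rfl⟩))
          rcases hR.nmem q j hj with h | h | h
          · left
            have := mul_lt_mul_of_pos_left h (hd p)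
            simp only [stepR, stepB, Sum.elim_inl, Sum.elim_inr, Bool.false_eq_true, if_false]
            unfold stripU at *
            linarith
          · right; left
            have := mul_lt_mul_of_pos_left h (hd p)
            simp only [stepR, stepB, Sum.elim_inl, Sum.elim_inr, Bool.false_eq_true, if_false]
            linarith
          · right; right
            simp only [stepR, stepB, Sum.elim_inl, Sum.elim_inr, Bool.false_eq_true, if_false]
            exact recB_aff (he4 p) h
        · right; right
          have := mul_lt_mul_of_pos_left (hB.hz j).2.2.2 (he4 p)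
          simp only [stepR, stepB, Sum.elim_inl, Sum.elim_inr, if_true]
          linarith
      · rcases hR.disj p p' hp with h | h
        · right; left
          cases b <;> simp only [stepR, stepB, Sum.elim_inl, Sum.elim_inr, if_true,
            Bool.false_eq_true, if_false] <;> linarith
        · left
          cases b <;> simp only [stepR, stepB, Sum.elim_inl, Sum.elim_inr, if_true,
            Bool.false_eq_true, if_false] <;> linarith
    · -- new
      obtain ⟨b1, b2, b3, b4⟩ := strip_bounds B R hR p' q'
      by_cases hpq : (p, q) = (p', q')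
      · cases b
        · right; left
          obtain ⟨rfl, rfl⟩ := Prod.mk.inj hpq
          simp only [stepR, stepB, Sum.elim_inr, Bool.false_eq_true, if_false]
          linarith
        · exfalso
          apply hw
          right
          simp only [if_true]
          rw [hpq]
      · rcases strip_disj B R hR p q p' q' hpq with h | h
        · right; left
          cases b <;> simp only [stepR, stepB, Sum.elim_inr, if_true,
            Bool.false_eq_true, if_false] <;> linarith
        · left
          cases b <;> simp only [stepR, stepB, Sum.elim_inr, if_true,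
            Bool.false_eq_true, if_false] <;> linarith
  · rintro ⟨⟨p, q⟩, b⟩ ⟨⟨p', q'⟩, b'⟩ hne
    obtain ⟨a1, a2, a3, a4⟩ := strip_bounds B R hR p q
    obtain ⟨b1, b2, b3, b4⟩ := strip_bounds B R hR p' q'
    by_cases hpq : (p, q) = (p', q')
    · obtain ⟨rfl, rfl⟩ := Prod.mk.inj hpq
      cases b <;> cases b'
      · exact absurd rfl hne
      · left
        simp only [stepR, if_true, Bool.false_eq_true, if_false]
        linarith
      · right
        simp only [stepR, if_true, Bool.false_eq_true, if_false]
        linarith
      · exact absurd rfl hne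
    · rcases strip_disj B R hR p q p' q' hpq with h | h
      · left
        cases b <;> cases b' <;> simp only [stepR, if_true, Bool.false_eq_true, if_false] <;> linarith
      · right
        cases b <;> cases b' <;> simp only [stepR, if_true, Bool.false_eq_true, if_false] <;> linarith

end Pool.Agent.CG
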