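import Pool.Agent.Lib.MP_7f572a_co.RecA
import Pool.Agent.Lib.MP_7f572a_co.RecB
set_option autoImplicit false
namespace Pool.Agent.CG

private theorem recC_aff {c d x y : ℝ} (hd : 0 < d) (h : x < y) : c + d * x < c + d * y := by
  have := mul_lt_mul_of_pos_left h hd
  linarith

/-- JOB RecC (this file: 2 theorems).  The colouring step.

Let `f` be a proper colouring of the new boxes.  `f ∘ inl` is a proper colouring of `B` (an arc `i → j`
of `B` gives an arc of the outer copy), so there is a probe `p` with `k ≤ |S₁|`, `S₁ = f '' (outer M p)`.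
`f` on the inner copy of `p` is proper, so there is `q` with `k ≤ |S₂|`, `S₂ = f '' (inner (p, M q))`.
For `j ∈ M q` there is an arc from the inner box `(p,j)` to the new box `D = (p,q)`:
`1/8 < x1'`, `x1' < 3/8 < 7/16`, `y0' < U < y0 D < U + W < y1'`, `z0' < z0 D` (`z0 j < h j < s q`),
`z0 D < z1'` (`s q < z1 j`).  So `f D ∉ S₂`.
If `k + 1 ≤ |S₁ ∪ S₂|`, the lower probe works (its members have colours `S₁ ∪ S₂`).  Otherwise
`|S₁ ∪ S₂| ≤ k`, so `S₁ = S₁ ∪ S₂ = S₂`, hence `f D ∉ S₁` and the upper probe has the colours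
`insert (f D) S₁`, at least `k + 1` of them.  (All sets are finite.) -/
theorem step_col {V P : Type} [Finite V] [Finite P] (B : Boxes V) (R : Probes V P) (ε : P → ℝ)
    (hB : B.Good) (hR : ProbeGood B R) (hε : GapGood B R ε) (k : ℕ) (hk : ColProp B R k) :
    ColProp (stepB B R ε) (stepR R ε) (k + 1) := by
  intro f hf
  have hd : ∀ p, 0 < R.v p - R.u p := fun p => by
    obtain ⟨p1, p2, p3⟩ := hR.huv p
    linarith
  have he4 : ∀ p, 0 < ε p / 4 := fun p => by
    have := hε.pos p
    linarith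
  obtain ⟨p, hp⟩ := hk (fun j => f (Sum.inl j)) (by
    rintro i j ⟨h1, h2, h3⟩
    apply hf
    refine ⟨?_, ?_, ?_⟩
    · simp only [stepB, Sum.elim_inl]; linarith
    · simp only [stepB, Sum.elim_inl]; linarith
    · exact h3)
  obtain ⟨q, hq⟩ := hk (fun j => f (Sum.inr (Sum.inl (p, j)))) (by
    rintro i j ⟨h1, h2, h3, h4, h5, h6⟩
    apply hf
    refine ⟨?_, ?_, ?_, ?_, ?_, ?_⟩
    · simp only [stepB, Sum.elim_inl, Sum.elim_inr]; linarith
    · simp only [stepB, Sum.elim_inl, Sum.elim_inr]; linarith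
    · exact recC_aff (hd p) h3
    · exact recC_aff (hd p) h4
    · exact recC_aff (he4 p) h5
    · exact recC_aff (he4 p) h6)
  set S₁ : Set ℕ := (fun j => f (Sum.inl j)) '' R.M p with hS1
  set S₂ : Set ℕ := (fun j => f (Sum.inr (Sum.inl (p, j)))) '' R.M q with hS2
  have hD : f (Sum.inr (Sum.inr (p, q))) ∉ S₂ := by
    rintro ⟨j, hj, hjf⟩
    refine hf (Sum.inr (Sum.inl (p, j))) (Sum.inr (Sum.inr (p, q))) ?_ hjf
    obtain ⟨a1, a2, a3, a4⟩ := strip_bounds B R hR p q
    obtain ⟨m1, m2, m3, m4⟩ := hR.mem q j hj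
    obtain ⟨x1, x2, x3⟩ := hB.hx j
    obtain ⟨z1, z2, z3, z4⟩ := hB.hz j
    have e1 := mul_lt_mul_of_pos_left m1 (hd p)
    have e2 := mul_lt_mul_of_pos_left m2 (hd p)
    refine ⟨?_, ?_, ?_, ?_, ?_, ?_⟩
    · simp only [stepB, Sum.elim_inl, Sum.elim_inr]; linarith
    · simp only [stepB, Sum.elim_inl, Sum.elim_inr]; linarith
    · simp only [stepB, Sum.elim_inl, Sum.elim_inr]
      unfold stripU at *
      linarith
    · simp only [stepB, Sum.elim_inl, Sum.elim_inr]
      linarith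
    · exact recC_aff (he4 p) (z2.trans m3)
    · exact recC_aff (he4 p) m4
  have hf1 : S₁.Finite := Set.toFinite _
  have hf2 : S₂.Finite := Set.toFinite _
  by_cases h : k + 1 ≤ (S₁ ∪ S₂).ncard
  · refine ⟨((p, q), false), h.trans ?_⟩
    apply Set.ncard_le_ncard _ (Set.toFinite _)
    rintro c (⟨j, hj, rfl⟩ | ⟨j, hj, rfl⟩)
    · exact ⟨Sum.inl j, Or.inl ⟨j, hj, rfl⟩, rfl⟩
    · refine ⟨Sum.inr (Sum.inl (p, j)), Or.inr ?_, rfl⟩
      simp only [Bool.false_eq_true, if_false]
      exact ⟨j, hj, rfl⟩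
  · have h' : (S₁ ∪ S₂).ncard ≤ k := by omega
    have e1 : S₁ = S₁ ∪ S₂ := Set.eq_of_subset_of_ncard_le Set.subset_union_left
      (h'.trans hp) (hf1.union hf2)
    have e2 : S₂ = S₁ ∪ S₂ := Set.eq_of_subset_of_ncard_le Set.subset_union_right
      (h'.trans hq) (hf1.union hf2)
    have hD' : f (Sum.inr (Sum.inr (p, q))) ∉ S₁ := by
      rw [e1, ← e2]; exact hD
    refine ⟨((p, q), true), ?_⟩
    have h1 : k + 1 ≤ (insert (f (Sum.inr (Sum.inr (p, q)))) S₁).ncard := by
      rw [Set.ncard_insert_of_notMem hD' hf1]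
      omega
    refine h1.trans (Set.ncard_le_ncard ?_ (Set.toFinite _))
    rintro c (rfl | ⟨j, hj, rfl⟩)
    · refine ⟨Sum.inr (Sum.inr (p, q)), Or.inr ?_, rfl⟩
      simp only [if_true]
    · exact ⟨Sum.inl j, Or.inl ⟨j, hj, rfl⟩, rfl⟩

private theorem recC_ex (k : ℕ) : ∃ (V P : Type) (_ : Finite V) (_ : Finite P) (B : Boxes V)
    (R : Probes V P), B.Good ∧ ProbeGood B R ∧ ColProp B R (k + 1) := by
  induction k with
  | zero =>
    refine ⟨Unit, Unit, inferInstance, inferInstance,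
      ⟨fun _ => 1 / 4, fun _ => 3 / 4, fun _ => 1 / 4, fun _ => 3 / 4, fun _ => 1 / 4,
        fun _ => 3 / 4, fun _ => 3 / 8⟩,
      ⟨fun _ => 3 / 8, fun _ => 5 / 8, fun _ => 1 / 2, fun _ => Set.univ⟩, ?_, ?_, ?_⟩
    · constructor
      · intro i; norm_num
      · intro i; norm_num
      · intro i; norm_num
      · intro i j hij; exact absurd rfl hij
    · constructor
      · intro p; norm_num
      · intro p; norm_num
      · intro p j _; norm_num
      · intro p j hj; exact absurd trivial hj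
      · intro p q hpq; exact absurd rfl hpq
    · intro f _
      refine ⟨(), ?_⟩
      have : f '' (Set.univ : Set Unit) = {f ()} := by
        ext c
        constructor
        · rintro ⟨x, -, rfl⟩; rfl
        · rintro rfl; exact ⟨(), trivial, rfl⟩
      show 0 + 1 ≤ (f '' (Set.univ : Set Unit)).ncard
      rw [this, Set.ncard_singleton]
  | succ k ih =>
    obtain ⟨V, P, hV, hP, B, R, hB, hR, hc⟩ := ih
    obtain ⟨ε, hε⟩ := exists_gap B R hR
    exact ⟨StepV V P, (P × P) × Bool, inferInstance, inferInstance, stepB B R ε, stepR R ε,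
      step_good B R ε hB hR hε, step_probeGood B R ε hB hR hε, step_col B R ε hB hR hε _ hc⟩

/-- The result of the recursion.  By induction on `k`: there are finite types `V`, `P` and good
`B`, `R` with `ColProp B R (k+1)` (start: `V = P = Unit`, box `[1/4,3/4]³`, `h = 3/8`, probe
`u = 3/8`, `v = 5/8`, `s = 1/2`, `M = univ`; step: `exists_gap`, `step_good`, `step_probeGood`,
`step_col`).  Finally transport `V` to `Fin n`. -/
theorem burling (k : ℕ) : ∃ (n : ℕ) (B : Boxes (Fin n)), B.Good ∧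
    ∀ f : Fin n → ℕ, (∀ i j, B.Arc i j → f i ≠ f j) → k ≤ (Set.range f).ncard := by
  obtain ⟨V, P, hV, hP, B, R, hB, hR, hc⟩ := recC_ex k
  obtain ⟨n, ⟨e⟩⟩ := Finite.exists_equiv_fin V
  refine ⟨n, ⟨fun i => B.x0 (e.symm i), fun i => B.x1 (e.symm i), fun i => B.y0 (e.symm i),
    fun i => B.y1 (e.symm i), fun i => B.z0 (e.symm i), fun i => B.z1 (e.symm i),
    fun i => B.h (e.symm i)⟩, ?_, ?_⟩
  · constructor
    · exact fun i => hB.hx _
    · exact fun i => hB.hy _
    · exact fun i => hB.hz _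
    · exact fun i j hij => hB.sep _ _ (fun h => hij (e.symm.injective h))
  · intro f hf
    obtain ⟨p, hp⟩ := hc (fun v => f (e v)) (by
      intro i j hij
      apply hf
      unfold Boxes.Arc at *
      simp only [Equiv.symm_apply_apply]
      exact hij)
    have h1 : ((fun v => f (e v)) '' R.M p).ncard ≤ (Set.range f).ncard := by
      apply Set.ncard_le_ncard _ (Set.toFinite _)
      rintro c ⟨j, _, rfl⟩
      exact ⟨e j, rfl⟩
    omega

end Pool.Agent.CG
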