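import Pool.Agent.Lib.MP_7f572a_co.Q2B
import Pool.Agent.Lib.MP_7f572a_co.BLow
import Pool.Agent.Lib.MP_7f572a_co.LUp
import Pool.Agent.Lib.MP_7f572a_co.BTest
import Pool.Agent.Lib.MP_7f572a_co.RecC
set_option autoImplicit false
namespace Pool.Agent.CG

/-- JOB Q2Main (this file: 1 theorem).  Second question.  Given `N`, let `T` be the number of `bdim_color`
for `r = N`, and take `burling (2 ^ T + 1)`: `n`, `B`.  `C = (raw3 B).toBox.closed`.
* convex geometry: `closed_convexGeometry`; `HasLdimLE C 5`: `ldim_up` with `ω = 2`, `depth_le_two`.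
* `n ≥ 1`: for `n = 0` the range of `f : Fin 0 → ℕ` is empty, contradicting `2 ^ T + 1 ≤ ncard`.
* Suppose `HasBdimLE C r` with `r < N`; by `HasBdimLE.mono` also with `N`.  Apply the statement of
  `bdim_color` to the type of arcs `{e : Fin n × Fin n // B.Arc e.1 e.2}` and the maps `arcA`, `arcB`
  (`arc_closed`, `arc_no_three`): we get `κ` with `κ (i,j) ≠ κ (j,l)` for consecutive arcs (`arc_adj`).
  Let `S i : Finset (Fin T)` be the set of `κ (i,l)`, `l` with `Arc i l`, and `f i : ℕ` its number under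
  an equivalence `Finset (Fin T) ≃ Fin (2 ^ T)`.  If `Arc i j` then `κ (i,j) ∈ S i`, `∉ S j`, so
  `f i ≠ f j`.  So `2 ^ T + 1 ≤ (Set.range f).ncard ≤ 2 ^ T`, contradiction. -/
theorem q2_main (N : ℕ) : ∃ (n : ℕ) (C : Set (Set (Fin n))), 1 ≤ n ∧ IsConvexGeometry C ∧
    HasLdimLE ↥C 5 ∧ ∀ r, HasBdimLE ↥C r → N ≤ r := by
  classical
  obtain ⟨T, hT⟩ := bdim_color N
  obtain ⟨n, B, hB, hcol⟩ := burling (2 ^ T + 1)
  have hn : 1 ≤ n := by
    by_contra hcon
    have hn0 : n = 0 := by omega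
    subst hn0
    have h0 := hcol (fun i => i.elim0) (fun i => i.elim0)
    rw [Set.range_eq_empty, Set.ncard_empty] at h0
    exact absurd h0 (Nat.not_succ_le_zero _)
  refine ⟨n, (raw3 B).toBox.closed, hn, closed_convexGeometry _ (by norm_num), ?_, ?_⟩
  · exact ldim_up (raw3 B).toBox 2 (depth_le_two B hB)
  · intro r hr
    by_contra hlt
    have hr' : HasBdimLE ↥(raw3 B).toBox.closed N := HasBdimLE.mono _ r N (by omega) hr
    obtain ⟨κ, hκ⟩ := hT (↥(raw3 B).toBox.closed) hr' {e : Fin n × Fin n // B.Arc e.1 e.2}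
      (fun e => ⟨arcA B e.1, (arc_closed B e.1 e.2).1⟩)
      (fun e => ⟨arcB B e.1, (arc_closed B e.1 e.2).2⟩)
      (fun e₁ e₂ e₃ h => arc_no_three B hB e₁.1 e₂.1 e₃.1 e₁.2 e₂.2 e₃.2 h.1 h.2.1 h.2.2)
    let S : Fin n → Finset (Fin T) := fun i =>
      Finset.univ.filter (fun t => ∃ (l : Fin n) (h : B.Arc i l), κ ⟨(i, l), h⟩ = t)
    have hcard : Fintype.card (Finset (Fin T)) = 2 ^ T := by
      rw [Fintype.card_finset, Fintype.card_fin]
    let eqv : Finset (Fin T) ≃ Fin (2 ^ T) := Fintype.equivFinOfCardEq hcard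
    have h1 := hcol (fun i => (eqv (S i) : ℕ)) (by
      intro i j hij heq
      have hS : S i = S j := eqv.injective (Fin.ext heq)
      have hmem : κ ⟨(i, j), hij⟩ ∈ S i := by
        rw [Finset.mem_filter]
        exact ⟨Finset.mem_univ _, j, hij, rfl⟩
      rw [hS, Finset.mem_filter] at hmem
      obtain ⟨-, l, hjl, hk⟩ := hmem
      exact hκ ⟨(i, j), hij⟩ ⟨(j, l), hjl⟩ (arc_adj B hB i j l hij hjl) hk.symm)
    have h2 : Set.range (fun i => (eqv (S i) : ℕ)) ⊆ Set.Iio (2 ^ T) := by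
      rintro _ ⟨i, rfl⟩
      exact (eqv (S i)).2
    have h3 := Set.ncard_le_ncard h2 (Set.finite_Iio _)
    rw [Set.ncard_Iio_nat] at h3
    omega

end Pool.Agent.CG
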