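import Pool.Agent.Lib.MP_7f572a_co.Q1Main
import Pool.Agent.Lib.MP_7f572a_co.Q2Main
set_option autoImplicit false
namespace Pool.Agent.CG

/-- JOB Main (this file: 4 theorems).  Transport of a set system along a bijection. -/
theorem transport {X Y : Type} (e : X ≃ Y) (C : Set (Set X)) (hC : IsConvexGeometry C) :
    ∃ C' : Set (Set Y), IsConvexGeometry C' ∧ Nonempty (↥C ≃o ↥C') := by
  refine ⟨(fun A => e '' A) '' C, ⟨?_, ?_, ?_, ?_⟩, ⟨?_⟩⟩
  · exact ⟨∅, hC.empty_mem, Set.image_empty _⟩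
  · exact ⟨Set.univ, hC.univ_mem, Set.image_univ_of_surjective e.surjective⟩
  · rintro _ ⟨A, hA, rfl⟩ _ ⟨B, hB, rfl⟩
    exact ⟨A ∩ B, hC.inter_mem A hA B hB, Set.image_inter e.injective⟩
  · rintro _ ⟨A, hA, rfl⟩ hne
    have hA' : A ≠ Set.univ := by
      intro h
      apply hne
      rw [h]
      exact Set.image_univ_of_surjective e.surjective
    obtain ⟨x, hx, hx'⟩ := hC.ext_mem A hA hA'
    refine ⟨e x, ?_, insert x A, hx', Set.image_insert_eq⟩
    rintro ⟨y, hy, hxy⟩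
    exact hx (e.injective hxy ▸ hy)
  · refine ⟨Equiv.ofBijective (fun A : ↥C => (⟨e '' A.1, A.1, A.2, rfl⟩ :
        ↥((fun A => e '' A) '' C))) ⟨?_, ?_⟩, ?_⟩
    · intro A B h
      have h1 : e '' A.1 = e '' B.1 := congrArg Subtype.val h
      exact Subtype.ext (Set.image_injective.mpr e.injective h1)
    · rintro ⟨_, A, hA, rfl⟩
      exact ⟨⟨A, hA⟩, rfl⟩
    · intro A B
      exact Set.image_subset_image_iff e.injective

theorem bdim_iso (P Q : Type) [PartialOrder P] [PartialOrder Q] (e : P ≃o Q) (r : ℕ)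
    (h : HasBdimLE P r) : HasBdimLE Q r := by
  obtain ⟨L, φ, hL, h⟩ := h
  refine ⟨fun i x y => L i (e.symm x) (e.symm y), φ, ?_, ?_⟩
  · intro i
    have := hL i
    exact (RelEmbedding.preimage e.symm.toEquiv.toEmbedding (L i)).isStrictTotalOrder
  · intro x y hxy
    rw [← h (e.symm x) (e.symm y) (fun hh => hxy (e.symm.injective hh))]
    exact (e.symm.lt_iff_lt).symm

theorem ldim_iso (P Q : Type) [PartialOrder P] [PartialOrder Q] (e : P ≃o Q) (r : ℕ)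
    (h : HasLdimLE P r) : HasLdimLE Q r := by
  obtain ⟨R, hR, hm⟩ := h
  set f : PLE P → PLE Q := fun L =>
    { carrier := {q | e.symm q ∈ L.carrier}
      lt := fun x y => L.lt (e.symm x) (e.symm y)
      lt_mem := fun x y h => L.lt_mem _ _ h
      irrefl := fun x h => L.irrefl _ h
      trans := fun x y z h h' => L.trans _ _ _ h h'
      total := fun x hx y hy hxy => L.total _ hx _ hy (fun hh => hxy (e.symm.injective hh))
      ext_lt := fun x hx y hy h => L.ext_lt _ hx _ hy (e.symm.lt_iff_lt.mpr h) } with hf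
  refine ⟨f '' R, ⟨?_, ?_⟩, ?_⟩
  · intro x y hxy
    obtain ⟨L, hL, h⟩ := hR.comp (e.symm x) (e.symm y) (e.symm.lt_iff_lt.mpr hxy)
    exact ⟨f L, ⟨L, hL, rfl⟩, h⟩
  · intro x y h1 h2
    obtain ⟨⟨L, hL, h⟩, ⟨L', hL', h'⟩⟩ := hR.incomp (e.symm x) (e.symm y)
      (fun hh => h1 (e.symm.le_iff_le.mp hh)) (fun hh => h2 (e.symm.le_iff_le.mp hh))
    exact ⟨⟨f L, ⟨L, hL, rfl⟩, h⟩, ⟨f L', ⟨L', hL', rfl⟩, h'⟩⟩
  · intro x
    have hsub : {L ∈ f '' R | x ∈ L.carrier} ⊆ f '' {L ∈ R | e.symm x ∈ L.carrier} := by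
      rintro _ ⟨⟨L, hL, rfl⟩, hx⟩
      exact ⟨L, ⟨hL, hx⟩, rfl⟩
    exact (Set.encard_le_encard hsub).trans ((Set.encard_image_le _ _).trans (hm _))

/-- Both questions have a negative answer.  (`Nat.sInf_le`, `le_csInf`/`Nat.sInf_mem`; for the second
part a Boolean realizer exists by `bdim_exists`.) -/
theorem main_result :
    (∀ N : ℕ, ∃ (n : ℕ) (C : Set (Set (Fin n))), 1 ≤ n ∧ IsConvexGeometry C ∧
      bdim ↥C ≤ 16 ∧ N ≤ ldim ↥C) ∧
    (∀ N : ℕ, ∃ (n : ℕ) (C : Set (Set (Fin n))), 1 ≤ n ∧ IsConvexGeometry C ∧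
      ldim ↥C ≤ 5 ∧ N ≤ bdim ↥C) := by
  constructor
  · intro N
    obtain ⟨X, hX, hX', C, hC, hb, ⟨r, hr⟩, hl⟩ := q1_main (max N 1) (le_max_right _ _)
    obtain ⟨C', hC', ⟨e⟩⟩ := transport (Finite.equivFin X) C hC
    refine ⟨Nat.card X, C', Nat.card_pos, hC', ?_, ?_⟩
    · exact Nat.sInf_le (bdim_iso _ _ e 16 hb)
    · apply le_csInf ⟨r, ldim_iso _ _ e r hr⟩
      intro r' hr'
      exact (le_max_left N 1).trans (hl r' (ldim_iso _ _ e.symm r' hr'))
  · intro N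
    obtain ⟨n, C, hn, hC, hl, hb⟩ := q2_main N
    refine ⟨n, C, hn, hC, Nat.sInf_le hl, ?_⟩
    apply le_csInf ⟨2 * Fintype.card (Fin n), bdim_exists C⟩
    intro r hr
    exact hb r hr

end Pool.Agent.CG
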