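import Pool.Agent.Lib.MP_7f572a_co.Rec
set_option autoImplicit false
namespace Pool.Agent.CG

/-! # Lists of reals with the lexicographic order (`List.instLinearOrder`, a proper prefix is smaller) -/

/-- lower corner of the nested box `s` in one coordinate: `b s₁, …, b s_{m-1}, a s_m` -/
def low {n : ℕ} (a b : Fin n → ℝ) : List (Fin n) → List ℝ
  | [] => []
  | [j] => [a j]
  | i :: j :: s => b i :: low a b (j :: s)

/-- upper corner of the nested box `s` in one coordinate: `b s₁, …, b s_m, 2` -/
def high {n : ℕ} (b : Fin n → ℝ) (s : List (Fin n)) : List ℝ := s.map b ++ [2]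

private theorem NL_lt (a b : ℝ) (l l' : List ℝ) :
    (a :: l < b :: l') ↔ a < b ∨ a = b ∧ l < l' := List.cons_lt_cons_iff

private theorem NL_le (a b : ℝ) (l l' : List ℝ) :
    (a :: l ≤ b :: l') ↔ a < b ∨ a = b ∧ l ≤ l' := by
  rw [le_iff_lt_or_eq, NL_lt, le_iff_lt_or_eq, List.cons.injEq]
  tauto

private theorem NL_nil (a : ℝ) (l : List ℝ) : ¬ (a :: l ≤ []) :=
  not_le.2 (List.nil_lt_cons a l)

private theorem NL_append_lt (L l l' : List ℝ) (h : l < l') : L ++ l < L ++ l' := by
  induction L with
  | nil => exact h
  | cons z L ih =>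
    rw [List.cons_append, List.cons_append, NL_lt]
    exact Or.inr ⟨rfl, ih⟩

private theorem NL_append_le (L l l' : List ℝ) (h : l ≤ l') : L ++ l ≤ L ++ l' := by
  rcases lt_or_eq_of_le h with h | h
  · exact (NL_append_lt L l l' h).le
  · rw [h]

/-- JOB NL (this file: 7 theorems, all short; `List.cons_lt_cons_iff`, `List.cons_le_cons_iff`,
induction). -/
theorem low_append {n : ℕ} (a b : Fin n → ℝ) (w : List (Fin n)) (j : Fin n) :
    low a b (w ++ [j]) = w.map b ++ [a j] := by
  induction w with
  | nil => rfl
  | cons i w ih =>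
    cases w with
    | nil => rfl
    | cons k w =>
      rw [List.cons_append, List.cons_append, low, ← List.cons_append, ih]
      rfl

private theorem NL_low {n : ℕ} (a b : Fin n → ℝ) (w s : List (Fin n)) (hs : s ≠ []) :
    low a b (w ++ s) = w.map b ++ low a b s := by
  have h1 := List.dropLast_append_getLast hs
  rw [← h1, ← List.append_assoc, low_append, low_append, List.map_append, List.append_assoc]

theorem list_between (L l : List ℝ) (p q : ℝ) (h1 : L ++ [p] ≤ l) (h2 : l ≤ L ++ [q, 2]) :
    ∃ y r, l = L ++ y :: r ∧ p ≤ y ∧ y ≤ q := by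
  induction L generalizing l with
  | nil =>
    rw [List.nil_append] at h1 h2
    cases l with
    | nil => exact absurd h1 (NL_nil _ _)
    | cons y r =>
      refine ⟨y, r, rfl, ?_, ?_⟩
      · rw [NL_le] at h1
        rcases h1 with h | h
        · exact h.le
        · exact h.1.le
      · rw [NL_le] at h2
        rcases h2 with h | h
        · exact h.le
        · exact h.1.le
  | cons z L ih =>
    rw [List.cons_append] at h1 h2
    cases l with
    | nil => exact absurd h1 (NL_nil _ _)
    | cons y r =>
      rw [NL_le] at h1 h2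
      rcases h1 with h1 | h1
      · rcases h2 with h2 | h2
        · exact absurd h1 (lt_asymm h2)
        · exact absurd h1 (h2.1 ▸ lt_irrefl _)
      · rcases h2 with h2 | h2
        · exact absurd h2 (h1.1 ▸ lt_irrefl _)
        · obtain ⟨y', r', h3, h4, h5⟩ := ih r h1.2 h2.2
          refine ⟨y', r', ?_, h4, h5⟩
          rw [h3, h1.1, List.cons_append]

theorem list_le_entry (L r r' : List ℝ) (y y' : ℝ) (h : L ++ y :: r ≤ L ++ y' :: r') : y ≤ y' := by
  induction L with
  | nil =>
    rw [List.nil_append, List.nil_append, NL_le] at h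
    rcases h with h | h
    · exact h.le
    · exact h.1.le
  | cons z L ih =>
    rw [List.cons_append, List.cons_append, NL_le] at h
    rcases h with h | h
    · exact absurd h (lt_irrefl _)
    · exact ih h.2

/-- combination: a list between the corners of the nested box `w ++ [j]` -/
theorem nested_between {n : ℕ} (a b : Fin n → ℝ) (w : List (Fin n)) (j : Fin n) (l : List ℝ)
    (h1 : low a b (w ++ [j]) ≤ l) (h2 : l ≤ high b (w ++ [j])) :
    ∃ y r, l = w.map b ++ y :: r ∧ a j ≤ y ∧ y ≤ b j := by
  rw [low_append] at h1
  refine list_between (w.map b) l (a j) (b j) h1 ?_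
  have h3 : high b (w ++ [j]) = w.map b ++ [b j, 2] := by
    unfold high
    rw [List.map_append, List.append_assoc]
    rfl
  rwa [h3] at h2

/-- `u` a nonempty proper prefix of `v`: the lower corner of `u` is smaller (`a i < b i`). -/
theorem low_lt_low {n : ℕ} (a b : Fin n → ℝ) (hab : ∀ i, a i < b i) (u v : List (Fin n))
    (hu : u ≠ []) (h : u <+: v) (hne : u ≠ v) : low a b u < low a b v := by
  obtain ⟨t, rfl⟩ := h
  have ht : t ≠ [] := by
    rintro rfl
    exact hne (List.append_nil u).symm
  have h1 := List.dropLast_append_getLast hu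
  set w := u.dropLast
  set i := u.getLast hu
  rw [← h1, low_append, NL_low _ _ _ _ ht, List.map_append, List.append_assoc]
  apply NL_append_lt
  rw [List.map_cons, List.map_nil, List.cons_append, NL_lt]
  exact Or.inl (hab i)

/-- `u` a prefix of `v`: the upper corner of `v` is at most that of `u` (`b i < 2`). -/
theorem high_le_high {n : ℕ} (b : Fin n → ℝ) (hb : ∀ i, b i < 2) (u v : List (Fin n))
    (h : u <+: v) : high b v ≤ high b u := by
  obtain ⟨t, rfl⟩ := h
  unfold high
  rw [List.map_append, List.append_assoc]
  apply NL_append_le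
  cases t with
  | nil => exact le_refl _
  | cons i t =>
    rw [List.map_cons, List.cons_append, NL_le]
    exact Or.inl (hb i)

/-- `a i < b j`: the lower corner of `w ++ [i]` is below the upper corner of every extension of
`w ++ [j]`; also the lower corner of `u` is below the upper corner of every extension `v` of `u`. -/
theorem low_le_high {n : ℕ} (a b : Fin n → ℝ) (w s : List (Fin n)) (i j : Fin n) (hij : a i < b j)
    (h : (w ++ [j]) <+: s) : low a b (w ++ [i]) ≤ high b s := by
  obtain ⟨t, rfl⟩ := h
  unfold high
  rw [low_append, List.map_append, List.map_append, List.append_assoc, List.append_assoc]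
  apply NL_append_le
  rw [List.map_cons, List.map_nil, List.cons_append, NL_le]
  exact Or.inl hij

end Pool.Agent.CG
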