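import Pool.Agent.Lib.MP_7f572a_co.TB
import Pool.Agent.Lib.MP_7f572a_co.NL
set_option autoImplicit false
namespace Pool.Agent.CG

/-- the four coordinates of the corners (`x`, `y`, `z`, `-z`) -/
def a4 {n : ℕ} (B : Boxes (Fin n)) (k : Fin 4) (j : Fin n) : ℝ :=
  (![B.x0 j, B.y0 j, B.z0 j, -B.z1 j] : Fin 4 → ℝ) k

def b4 {n : ℕ} (B : Boxes (Fin n)) (k : Fin 4) (j : Fin n) : ℝ :=
  (![B.x1 j, B.y1 j, B.z1 j, -B.z0 j] : Fin 4 → ℝ) k

/-- nested boxes: nonempty sequences of length at most `N` -/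
abbrev NV (n N : ℕ) : Type := {s : List (Fin n) // s ≠ [] ∧ s.length ≤ N}

theorem NV_finite (n N : ℕ) : Finite (NV n N) :=
  Set.Finite.subset (List.finite_length_le (Fin n) N) (fun _ h => h.2)

instance (n N : ℕ) : Finite (NV n N) := NV_finite n N

/-- JOB Nest (this file: 6 theorems).  Facts about a single copy. -/
theorem a4_lt_b4 {n : ℕ} (B : Boxes (Fin n)) (hB : B.Good) (k : Fin 4) (j : Fin n) :
    a4 B k j < b4 B k j := by
  have hx := hB.hx j
  have hy := hB.hy j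
  have hz := hB.hz j
  fin_cases k <;> simp [a4, b4] <;> linarith [hx.2.1, hy.2.1, hz.2.1, hz.2.2.1]

theorem b4_lt_two {n : ℕ} (B : Boxes (Fin n)) (hB : B.Good) (k : Fin 4) (j : Fin n) :
    b4 B k j < 2 := by
  have hx := hB.hx j
  have hy := hB.hy j
  have hz := hB.hz j
  fin_cases k <;> simp [b4] <;> linarith [hx.2.2, hy.2.2, hz.1, hz.2.2.2]

/-- If a point `y` lies in two different boxes `i`, `j` (in `ℝ⁴`, so `z = y 2` and `-(y 3)` both lie in
`[z0, z1]`), then `z` and `-(y 3)` are both below the height of one of them and both above the height of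
the other one (`sep`). -/
theorem pure_roles {n : ℕ} (B : Boxes (Fin n)) (hB : B.Good) (i j : Fin n) (hij : i ≠ j)
    (y : Fin 4 → ℝ) (hi : ∀ k, a4 B k i ≤ y k ∧ y k ≤ b4 B k i)
    (hj : ∀ k, a4 B k j ≤ y k ∧ y k ≤ b4 B k j) :
    (y 2 < B.h j ∧ -(y 3) < B.h j ∧ B.h i < y 2 ∧ B.h i < -(y 3)) ∨
      (y 2 < B.h i ∧ -(y 3) < B.h i ∧ B.h j < y 2 ∧ B.h j < -(y 3)) := by
  have i0 := hi 0
  have i1 := hi 1
  have i2 := hi 2
  have i3 := hi 3
  have j0 := hj 0
  have j1 := hj 1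
  have j2 := hj 2
  have j3 := hj 3
  simp only [a4, b4, Matrix.cons_val_zero, Matrix.cons_val_one, Matrix.cons_val] at i0 i1 i2 i3 j0 j1 j2 j3
  rcases hB.sep i j hij with h | h | h
  · exfalso
    rcases h with h | h | h | h | h | h <;> linarith [i0.1, i0.2, i1.1, i1.2, i2.1, i2.2, j0.1, j0.2, j1.1, j1.2, j2.1, j2.2]
  · left
    refine ⟨?_, ?_, ?_, ?_⟩ <;> linarith [i2.2, i3.1, j2.1, j3.2, h.1, h.2]
  · right
    refine ⟨?_, ?_, ?_, ?_⟩ <;> linarith [j2.2, j3.1, i2.1, i3.2, h.1, h.2]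

/-- The upper corner of `j` lies in no other box: otherwise `pure_roles` for `y = b4 B · j`, where
`y 2 = z1 j > h j` and `-(y 3) = z0 j < h j`. -/
theorem b4_mem {n : ℕ} (B : Boxes (Fin n)) (hB : B.Good) (i j : Fin n)
    (h : ∀ k, a4 B k i ≤ b4 B k j ∧ b4 B k j ≤ b4 B k i) : i = j := by
  by_contra hne
  have hz := hB.hz j
  have key := pure_roles B hB i j hne (fun k => b4 B k j) h
    (fun k => ⟨(a4_lt_b4 B hB k j).le, le_refl _⟩)
  simp only [b4, Matrix.cons_val] at key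
  rcases key with k | k
  · linarith [k.1, hz.2.2.1]
  · linarith [k.2.2.2, hz.2.1]

/-- an arc gives `a4 < b4` in both directions -/
theorem arc_lt {n : ℕ} (B : Boxes (Fin n)) (hB : B.Good) (i j : Fin n) (h : B.Arc i j) (k : Fin 4) :
    a4 B k i < b4 B k j ∧ a4 B k j < b4 B k i := by
  obtain ⟨h1, h2, h3, h4, h5, h6⟩ := h
  have hx := hB.hx i
  have hy := hB.hy j
  have hz := hB.hz j
  fin_cases k <;> simp [a4, b4] <;> constructor <;>
    linarith [hx.2.1, hy.2.1, hz.2.1, hz.2.2.1]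

/-- The nested family: copies of the family inside the upper corners of the boxes. -/
noncomputable def raw4 {n : ℕ} (B : Boxes (Fin n)) (hB : B.Good) (N : ℕ) :
    RawFam (NV n N) 4 (List ℝ) where
  m := Nat.card (NV n N)
  e := Finite.equivFin _
  a0 := fun s k => low (a4 B k) (b4 B k) s.1
  b0 := fun s k => high (b4 B k) s.1
  anc := fun u v => u.1 <+: v.1 ∧ u ≠ v
  anc_a0 := fun u v h k => low_lt_low _ _ (a4_lt_b4 B hB k) u.1 v.1 u.2.1 h.1
    (fun h' => h.2 (Subtype.ext h'))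
  anc_irrefl := fun u h => h.2 rfl
  anc_trans := fun u v w h h' => ⟨h.1.trans h'.1, fun hh => by
    subst hh
    exact h.2 (Subtype.ext (h.1.eq_of_length_le h'.1.length_le))⟩

/-- A point in the nested box `w ++ [j]`: all four coordinates start with `b4 w`, and the next entries
form a point of the box `j` (`toBox_inBox`, `nested_between`). -/
theorem nested_inBox {n : ℕ} (B : Boxes (Fin n)) (hB : B.Good) (N : ℕ)
    (c : Fin 4 → WithBot (List ℝ ×ₗ ℕ)) (v : NV n N) (w : List (Fin n)) (j : Fin n)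
    (hv : v.1 = w ++ [j]) (h : (raw4 B hB N).toBox.InBox c v) :
    ∃ (y : Fin 4 → ℝ) (r : Fin 4 → List ℝ),
      (∀ k, pr (c k) = ((w.map (b4 B k) ++ y k :: r k : List ℝ) : WithBot (List ℝ))) ∧
      ∀ k, a4 B k j ≤ y k ∧ y k ≤ b4 B k j := by
  have key : ∀ k : Fin 4, ∃ (y : ℝ) (r : List ℝ),
      pr (c k) = ((w.map (b4 B k) ++ y :: r : List ℝ) : WithBot (List ℝ)) ∧
      a4 B k j ≤ y ∧ y ≤ b4 B k j := by
    intro k
    obtain ⟨l, hl, h1, h2⟩ := toBox_inBox (raw4 B hB N) c v h k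
    change low (a4 B k) (b4 B k) v.1 ≤ l at h1
    change l ≤ high (b4 B k) v.1 at h2
    rw [hv] at h1 h2
    obtain ⟨y, r, e, p, q⟩ := nested_between (a4 B k) (b4 B k) w j l h1 h2
    exact ⟨y, r, by rw [hl, e], p, q⟩
  choose y r h1 h2 using key
  exact ⟨y, r, h1, h2⟩

end Pool.Agent.CG
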