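import Pool.Agent.Lib.MP_7f572a_co.Nest
set_option autoImplicit false
namespace Pool.Agent.CG

/-- entry number `m` of the list `pr (c k)` -/
noncomputable def ent (c : Fin 4 → WithBot (List ℝ ×ₗ ℕ)) (k : Fin 4) (m : ℕ) : ℝ :=
  (((pr (c k)).unbotD [])[m]?).getD 0

/-- the two groups of roles: `true` = not (above the height in both senses), `false` = not (below the
height in both senses) -/
def role (g : Bool) (z w h : ℝ) : Prop :=
  if g then ¬ (h < z ∧ h < -w) else ¬ (z < h ∧ -w < h)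

/-- the box `v` belongs to the chain number `g` at `c` -/
def InG {n : ℕ} (B : Boxes (Fin n)) (hB : B.Good) (N : ℕ) (g : Bool)
    (c : Fin 4 → WithBot (List ℝ ×ₗ ℕ)) (v : NV n N) : Prop :=
  (raw4 B hB N).toBox.InBox c v ∧
    role g (ent c 2 (v.1.length - 1)) (ent c 3 (v.1.length - 1)) (B.h (v.1.getLast v.2.1))

/-- JOB NestB (this file: 3 theorems).  `v.1 = v.1.dropLast ++ [getLast]`. -/
theorem ent_eq {n : ℕ} (B : Boxes (Fin n)) (c : Fin 4 → WithBot (List ℝ ×ₗ ℕ)) (w : List (Fin n))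
    (k : Fin 4) (y : ℝ) (r : List ℝ)
    (h : pr (c k) = ((w.map (b4 B k) ++ y :: r : List ℝ) : WithBot (List ℝ))) :
    ent c k w.length = y := by
  have h1 : ent c k w.length = (((pr (c k)).unbotD [])[w.length]?).getD 0 := rfl
  rw [h1, h, WithBot.unbotD_coe, List.getElem?_append_right (by simp)]
  simp

/-- An ancestor box contains `c` too (`anc_a`; `high_le_high`, `tb_le_tb`). -/
theorem inBox_anc {n : ℕ} (B : Boxes (Fin n)) (hB : B.Good) (N : ℕ)
    (c : Fin 4 → WithBot (List ℝ ×ₗ ℕ)) (u v : NV n N) (h : (raw4 B hB N).toBox.InBox c v)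
    (huv : (raw4 B hB N).toBox.anc u v) : (raw4 B hB N).toBox.InBox c u := by
  refine ⟨le_trans ((raw4 B hB N).toBox.anc_a u v huv) h.1, le_trans h.2 ?_⟩
  intro k
  show tb (high (b4 B k) v.1) _ ≤ tb (high (b4 B k) u.1) _
  rw [tb_le_tb]
  rcases lt_or_eq_of_le (high_le_high (b4 B k) (b4_lt_two B hB k) u.1 v.1 huv.1) with h1 | h1
  · exact Or.inl h1
  · exact Or.inr ⟨h1, le_refl _⟩

/-- If `u = w ++ [i]` is a proper ancestor of `v`, the entries of `c` at `|w|` are `b4 B k i`, so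
`z = z1 i > h i` and `-w = z0 i < h i`: both roles hold. -/
theorem InG_I2 {n : ℕ} (B : Boxes (Fin n)) (hB : B.Good) (N : ℕ) (g : Bool)
    (c : Fin 4 → WithBot (List ℝ ×ₗ ℕ)) (u v : NV n N) (h : InG B hB N g c v)
    (huv : (raw4 B hB N).toBox.anc u v) : InG B hB N g c u := by
  refine ⟨inBox_anc B hB N c u v h.1 huv, ?_⟩
  have hpre : u.1 <+: v.1 := huv.1
  have hne : u.1 ≠ v.1 := fun h' => huv.2 (Subtype.ext h')
  have hv : v.1 = v.1.dropLast ++ [v.1.getLast v.2.1] := (List.dropLast_append_getLast v.2.1).symm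
  have hu : u.1 = u.1.dropLast ++ [u.1.getLast u.2.1] := (List.dropLast_append_getLast u.2.1).symm
  have hpre2 : u.1 <+: v.1.dropLast := by
    rw [hv] at hpre
    rcases List.prefix_concat_iff.1 hpre with h4 | h4
    · exact absurd (h4.trans hv.symm) hne
    · exact h4
  obtain ⟨s, hs⟩ := hpre2
  obtain ⟨y, r, hy, -⟩ := nested_inBox B hB N c v _ _ hv h.1
  have hent : ∀ k, ent c k (u.1.length - 1) = b4 B k (u.1.getLast u.2.1) := by
    intro k
    have h5 : pr (c k) = ((u.1.dropLast.map (b4 B k) ++ (b4 B k (u.1.getLast u.2.1)) ::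
        (s.map (b4 B k) ++ y k :: r k) : List ℝ) : WithBot (List ℝ)) := by
      rw [hy k, ← hs]
      congr 1
      conv_lhs => rw [hu]
      simp
    have h6 := ent_eq B c u.1.dropLast k _ _ h5
    rwa [List.length_dropLast] at h6
  rw [hent 2, hent 3]
  have hz := hB.hz (u.1.getLast u.2.1)
  have e2 : b4 B 2 (u.1.getLast u.2.1) = B.z1 (u.1.getLast u.2.1) := rfl
  have e3 : b4 B 3 (u.1.getLast u.2.1) = -B.z0 (u.1.getLast u.2.1) := rfl
  rw [e2, e3]
  unfold role
  cases g
  · simp only [Bool.false_eq_true, if_false]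
    rintro ⟨h7, -⟩
    linarith [hz.2.2.1]
  · simp only [if_true]
    rintro ⟨-, h7⟩
    linarith [hz.2.1]

end Pool.Agent.CG
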