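import Pool.Agent.Lib.MP_7f572a_co.NestB
set_option autoImplicit false
namespace Pool.Agent.CG

theorem NestC_b4_inj {n : ℕ} (B : Boxes (Fin n)) (hB : B.Good) (i j : Fin n)
    (h : ∀ k, b4 B k i = b4 B k j) : i = j :=
  b4_mem B hB i j (fun k => ⟨by rw [← h k]; exact (a4_lt_b4 B hB k i).le, (h k).ge⟩)

theorem NestC_prefix {n : ℕ} (B : Boxes (Fin n)) (hB : B.Good) (w w' : List (Fin n))
    (y y' : Fin 4 → ℝ) (r r' : Fin 4 → List ℝ) (hl : w.length ≤ w'.length)
    (h : ∀ k, w.map (b4 B k) ++ y k :: r k = w'.map (b4 B k) ++ y' k :: r' k) : w <+: w' := by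
  induction w generalizing w' with
  | nil => exact List.nil_prefix
  | cons i w1 ih =>
    cases w' with
    | nil => simp at hl
    | cons j w1' =>
      have h1 : ∀ k, b4 B k i = b4 B k j ∧
          w1.map (b4 B k) ++ y k :: r k = w1'.map (b4 B k) ++ y' k :: r' k := by
        intro k
        have h2 := h k
        simp only [List.map_cons, List.cons_append] at h2
        exact List.cons.inj h2
      rw [List.cons_prefix_cons]
      refine ⟨NestC_b4_inj B hB i j (fun k => (h1 k).1), ih w1' ?_ (fun k => (h1 k).2)⟩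
      simpa using hl

theorem NestC_le {n : ℕ} (B : Boxes (Fin n)) (hB : B.Good) (N : ℕ) (g : Bool)
    (c : Fin 4 → WithBot (List ℝ ×ₗ ℕ)) (u v : NV n N) (hu : InG B hB N g c u)
    (hv : InG B hB N g c v) (hl : u.1.length ≤ v.1.length) : u.1 <+: v.1 := by
  have hv1 : v.1 = v.1.dropLast ++ [v.1.getLast v.2.1] := (List.dropLast_append_getLast v.2.1).symm
  have hu1 : u.1 = u.1.dropLast ++ [u.1.getLast u.2.1] := (List.dropLast_append_getLast u.2.1).symm
  obtain ⟨y, r, hy, hyb⟩ := nested_inBox B hB N c u _ _ hu1 hu.1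
  obtain ⟨y', r', hy', hyb'⟩ := nested_inBox B hB N c v _ _ hv1 hv.1
  have heq : ∀ k, u.1.dropLast.map (b4 B k) ++ y k :: r k =
      v.1.dropLast.map (b4 B k) ++ y' k :: r' k := by
    intro k
    have h1 := (hy k).symm.trans (hy' k)
    exact WithBot.coe_inj.1 h1
  have hpre : u.1.dropLast <+: v.1.dropLast := by
    apply NestC_prefix B hB _ _ y y' r r' _ heq
    rw [List.length_dropLast, List.length_dropLast]
    omega
  obtain ⟨s, hs⟩ := hpre
  have heq2 : ∀ k, y k :: r k = s.map (b4 B k) ++ y' k :: r' k := by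
    intro k
    have h1 := heq k
    rw [← hs, List.map_append, List.append_assoc] at h1
    exact List.append_cancel_left h1
  cases s with
  | nil =>
    rw [List.append_nil] at hs
    have hyy : ∀ k, y k = y' k := by
      intro k
      have h1 := heq2 k
      simp only [List.map_nil, List.nil_append] at h1
      exact (List.cons.inj h1).1
    by_cases hij : u.1.getLast u.2.1 = v.1.getLast v.2.1
    · have h1 : u.1 = v.1 := by
        rw [hu1, hv1, hs, hij]
      rw [h1]
    · exfalso
      have hb' : ∀ k, a4 B k (v.1.getLast v.2.1) ≤ y k ∧ y k ≤ b4 B k (v.1.getLast v.2.1) := by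
        intro k
        rw [hyy k]
        exact hyb' k
      have hru := hu.2
      have hrv := hv.2
      have e1 : ∀ k, ent c k (u.1.length - 1) = y k := by
        intro k
        have h6 := ent_eq B c u.1.dropLast k _ _ (hy k)
        rwa [List.length_dropLast] at h6
      have e2 : ∀ k, ent c k (v.1.length - 1) = y k := by
        intro k
        have h6 := ent_eq B c v.1.dropLast k _ _ (hy' k)
        rw [List.length_dropLast] at h6
        rw [h6, hyy k]
      rw [e1, e1] at hru
      rw [e2, e2] at hrv
      unfold role at hru hrv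
      rcases pure_roles B hB _ _ hij y hyb hb' with ⟨h1, h2, h3, h4⟩ | ⟨h1, h2, h3, h4⟩
      · cases g
        · simp only [Bool.false_eq_true, if_false] at hrv
          exact hrv ⟨h1, h2⟩
        · simp only [if_true] at hru
          exact hru ⟨h3, h4⟩
      · cases g
        · simp only [Bool.false_eq_true, if_false] at hru
          exact hru ⟨h1, h2⟩
        · simp only [if_true] at hrv
          exact hrv ⟨h3, h4⟩
  | cons i' s' =>
    have hyi : ∀ k, y k = b4 B k i' := by
      intro k
      have h1 := heq2 k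
      simp only [List.map_cons, List.cons_append] at h1
      exact (List.cons.inj h1).1
    have hii : u.1.getLast u.2.1 = i' := by
      apply b4_mem B hB
      intro k
      rw [← hyi k]
      exact hyb k
    have h1 : u.1 <+: v.1.dropLast := by
      rw [← hs]
      conv_lhs => rw [hu1, hii]
      exact ⟨s', by simp⟩
    exact h1.trans (List.dropLast_prefix v.1)

/-- JOB NestC (this file: 2 theorems).  Chain property.  Let `|u| ≤ |v|`, `u = w ++ [i]`, `v = w' ++ [j]`.  By `nested_inBox` the lists
`pr (c k)` start with `w.map (b4 B k)` and with `w'.map (b4 B k)`, so for `r < |w|` the entries number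
`r` of `w` and `w'` have the same `b4 B k` for all `k`, hence are equal by `b4_mem`.  If `|w| = |w'|`:
`w = w'`, and the next entries form a point `y` in both boxes `i`, `j`; if `i ≠ j`, `pure_roles`
contradicts the two roles of group `g`.  If `|w| < |w'|`: the entries number `|w|` are `b4 B k i'`, `i'`
the entry number `|w|` of `w'`, so `i = i'` by `b4_mem`, and `u` is a prefix of `w'`. -/
theorem InG_I3 {n : ℕ} (B : Boxes (Fin n)) (hB : B.Good) (N : ℕ) (g : Bool)
    (c : Fin 4 → WithBot (List ℝ ×ₗ ℕ)) (u v : NV n N) (hu : InG B hB N g c u)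
    (hv : InG B hB N g c v) : u.1 <+: v.1 ∨ v.1 <+: u.1 := by
  rcases le_total u.1.length v.1.length with hl | hl
  · exact Or.inl (NestC_le B hB N g c u v hu hv hl)
  · exact Or.inr (NestC_le B hB N g c v u hv hu hl)

/-- Monotonicity.  With `z ≤ z'`, `w ≤ w'` (entries of `c ≤ c'`: `pr_mono`, `list_le_entry`) one of the
two roles holds for both: if `true` fails for one of them and `false` fails for one of them we get a
contradiction in all four cases (e.g. `h < z`, `z' < h`; `h < -w' ≤ -w < h`). -/
theorem InG_I4 {n : ℕ} (B : Boxes (Fin n)) (hB : B.Good) (N : ℕ)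
    (c c' : Fin 4 → WithBot (List ℝ ×ₗ ℕ)) (v : NV n N) (hc : c ≤ c')
    (h : (raw4 B hB N).toBox.InBox c v) (h' : (raw4 B hB N).toBox.InBox c' v) :
    ∃ g, InG B hB N g c v ∧ InG B hB N g c' v := by
  have hv : v.1 = v.1.dropLast ++ [v.1.getLast v.2.1] := (List.dropLast_append_getLast v.2.1).symm
  obtain ⟨y, r, hy, -⟩ := nested_inBox B hB N c v _ _ hv h
  obtain ⟨y', r', hy', -⟩ := nested_inBox B hB N c' v _ _ hv h'
  have hle : ∀ k, y k ≤ y' k := by
    intro k
    have h1 := pr_mono _ _ (hc k)
    rw [hy k, hy' k, WithBot.coe_le_coe] at h1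
    exact list_le_entry _ _ _ _ _ h1
  have he : ∀ k, ent c k (v.1.length - 1) = y k := by
    intro k
    have h6 := ent_eq B c v.1.dropLast k _ _ (hy k)
    rwa [List.length_dropLast] at h6
  have he' : ∀ k, ent c' k (v.1.length - 1) = y' k := by
    intro k
    have h6 := ent_eq B c' v.1.dropLast k _ _ (hy' k)
    rwa [List.length_dropLast] at h6
  have h2 := hle 2
  have h3 := hle 3
  by_cases ht : role true (y 2) (y 3) (B.h (v.1.getLast v.2.1)) ∧
      role true (y' 2) (y' 3) (B.h (v.1.getLast v.2.1))
  · refine ⟨true, ⟨h, ?_⟩, ⟨h', ?_⟩⟩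
    · rw [he, he]
      exact ht.1
    · rw [he', he']
      exact ht.2
  · refine ⟨false, ⟨h, ?_⟩, ⟨h', ?_⟩⟩
    · rw [he, he]
      unfold role at ht ⊢
      simp only [if_true, Bool.false_eq_true, if_false] at ht ⊢
      rintro ⟨h4, h5⟩
      apply ht
      constructor
      · rintro ⟨h6, h7⟩
        linarith
      · rintro ⟨h6, h7⟩
        linarith
    · rw [he', he']
      unfold role at ht ⊢
      simp only [if_true, Bool.false_eq_true, if_false] at ht ⊢
      rintro ⟨h4, h5⟩
      apply ht
      constructor
      · rintro ⟨h6, h7⟩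
        linarith
      · rintro ⟨h6, h7⟩
        linarith

end Pool.Agent.CG
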