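import Pool.Agent.Lib.MP_7f572a_co.Nest
set_option autoImplicit false
namespace Pool.Agent.CG

/-- the closed set of a full sequence `s`: the boxes below the upper corner of `s`, without the prefixes
of `s` -/
def Eset {n : ℕ} (B : Boxes (Fin n)) (hB : B.Good) (N : ℕ) (s : NV n N) : Set (NV n N) :=
  {v | (raw4 B hB N).toBox.a v ≤ (raw4 B hB N).toBox.b s ∧ ¬ v.1 <+: s.1}

/-- JOB Q1A (this file: 3 theorems).
`Eset` is valid at the point `b s`: a missing box `v` with `a v ≤ b s` is a prefix of `s`, so `b s ≤ b v`
(`high_le_high`, `tb_le_tb`), and its ancestors are prefixes of `s`, so they are missing. -/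
theorem Eset_closed {n : ℕ} (B : Boxes (Fin n)) (hB : B.Good) (N : ℕ) (s : NV n N) :
    Eset B hB N s ∈ (raw4 B hB N).toBox.closed := by
  refine ⟨(raw4 B hB N).toBox.b s, fun v hv => hv.1, fun v hv hvE => ?_⟩
  have h1 : v.1 <+: s.1 := by
    by_contra h
    exact hvE ⟨hv, h⟩
  refine ⟨fun k => ?_, fun u hu huE => ?_⟩
  · show tb _ _ ≤ tb _ _
    rw [tb_le_tb]
    have h2 := high_le_high (b4 B k) (b4_lt_two B hB k) v.1 s.1 h1
    rcases lt_or_eq_of_le h2 with h3 | h3
    · exact Or.inl h3
    · exact Or.inr ⟨h3, le_refl _⟩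
  · have h3 : u.1 <+: v.1 := hu.1
    exact huE.2 (h3.trans h1)

/-- `u = w ++ [i]`, `s` extends `w ++ [j]`, `i ≠ j` adjacent: `u ∈ Eset s` (`toBox_a_le_b`,
`low_le_high`, `arc_lt`; `u` is not a prefix of `s`, and `i ≠ j` because `y0 i < y0 j` for an arc). -/
theorem Eset_mem {n : ℕ} (B : Boxes (Fin n)) (hB : B.Good) (N : ℕ) (s u : NV n N)
    (w : List (Fin n)) (i j : Fin n) (hu : u.1 = w ++ [i]) (hs : (w ++ [j]) <+: s.1)
    (hij : B.Arc i j ∨ B.Arc j i) : u ∈ Eset B hB N s := by
  refine ⟨?_, fun h => ?_⟩
  · rw [toBox_a_le_b]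
    intro k
    have h1 : a4 B k i < b4 B k j := by
      rcases hij with h | h
      · exact (arc_lt B hB i j h k).1
      · exact (arc_lt B hB j i h k).2
    have h2 := low_le_high (a4 B k) (b4 B k) w s.1 i j h1 hs
    rw [← hu] at h2
    exact h2
  · rw [hu] at h
    have h1 : w ++ [i] = w ++ [j] := by
      have h2 := List.prefix_of_prefix_length_le h hs (by simp)
      exact h2.eq_of_length (by simp)
    have h3 : i = j := by
      have := List.append_cancel_left h1
      exact (List.cons.inj this).1
    subst h3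
    have h4 : B.Arc i i := by
      rcases hij with h | h
      · exact h
      · exact h
    exact lt_irrefl _ h4.2.2.1

/-- The closure of a point is closed (for any convex geometry on a finite set: the intersection of all
closed sets containing `u`; finite induction on `inter_mem`, `univ_mem`). -/
theorem cl_closed {X : Type} [Finite X] (C : Set (Set X)) (hC : IsConvexGeometry C) (u : X) :
    ⋂₀ {A ∈ C | u ∈ A} ∈ C := by
  have h1 : ∀ T : Set (Set X), T.Finite → T ⊆ C → ⋂₀ T ∈ C := by
    intro T hT
    induction T, hT using Set.Finite.induction_on with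
    | empty =>
      intro _
      rw [Set.sInter_empty]
      exact hC.univ_mem
    | insert _ _ ih =>
      intro h
      rw [Set.sInter_insert]
      rw [Set.insert_subset_iff] at h
      exact hC.inter_mem _ h.1 _ (ih h.2)
  exact h1 _ (Set.toFinite _) (fun A hA => hA.1)

end Pool.Agent.CG
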