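import Pool.Agent.Lib.MP_7f572a_co.Q1A
import Pool.Agent.Lib.MP_7f572a_co.NestC
import Pool.Agent.Lib.MP_7f572a_co.LLow
import Pool.Agent.Lib.MP_7f572a_co.LUp
import Pool.Agent.Lib.MP_7f572a_co.BUp
import Pool.Agent.Lib.MP_7f572a_co.RecC
set_option autoImplicit false
namespace Pool.Agent.CG

theorem Q1Main_prefix_map {n : ℕ} (u v : List (Fin n)) :
    u.map Fin.val <+: v.map Fin.val ↔ u <+: v := by
  constructor
  · rintro ⟨t, ht⟩
    have h1 : (v.map Fin.val).take u.length = u.map Fin.val := by
      rw [← ht]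
      simp
    rw [← List.map_take] at h1
    have h2 := List.map_injective_iff.mpr Fin.val_injective h1
    rw [← h2]
    exact List.take_prefix _ _
  · exact fun h => h.map _

/-- JOB Q1Main.  First question.  Given `N ≥ 1`, take `burling (N * N + 1)`: `n`, `B`, `hB`, and
`C = (raw4 B hB N).toBox.closed` on `NV n N`.
* convex geometry: `closed_convexGeometry`; `HasBdimLE C 16`: `bdim_up` with `γ = Bool`, `m = n`,
  `path v = v.1.map Fin.val`, `InG`, `InG_I2`, `InG_I3`, `InG_I4` (a prefix of lists stays a prefix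
  under `List.map`, and `List.map` of an injective function reflects prefixes).
* some local realizer exists: `ldim_up` with `ω = Nat.card (NV n N)`.
* `HasLdimLE C r → N ≤ r`: if `r < N` then `r * N < N * N + 1`, and `ldim_low` with
  `x u = closure of u` (`cl_closed`; `⊤`-like value `univ` if `u` is not in `NV n N`), `E s = Eset s`
  (`univ` if `|s| ≠ N`): `x u ≤ A` for closed `A` iff `u ∈ A`.  (hα): prefixes of `s` are not in
  `Eset s`.  (hβ): `Eset_mem`.  Here `|w ++ [j]| ≤ |s| = N`, so `w ++ [i]` is in `NV n N`.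
* `NV n N` is nonempty: `n ≥ 1` because the range of a function `Fin 0 → ℕ` is empty. -/
theorem q1_main (N : ℕ) (hN : 1 ≤ N) : ∃ (X : Type) (_ : Finite X) (_ : Nonempty X)
    (C : Set (Set X)), IsConvexGeometry C ∧ HasBdimLE ↥C 16 ∧ (∃ r, HasLdimLE ↥C r) ∧
    ∀ r, HasLdimLE ↥C r → N ≤ r := by
  obtain ⟨n, B, hB, hcol⟩ := burling (N * N + 1)
  have hn : 0 < n := by
    rcases Nat.eq_zero_or_pos n with h0 | h0
    · subst h0
      have h1 := hcol (fun i => i.elim0) (fun i => i.elim0)
      have h2 : (Set.range (fun i : Fin 0 => (i.elim0 : ℕ))) = ∅ := by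
        ext y
        constructor
        · rintro ⟨i, _⟩
          exact i.elim0
        · intro h
          exact absurd h (Set.notMem_empty y)
      rw [h2, Set.ncard_empty] at h1
      omega
    · exact h0
  have hC : IsConvexGeometry (raw4 B hB N).toBox.closed :=
    closed_convexGeometry _ (by norm_num)
  refine ⟨NV n N, inferInstance, ⟨⟨[⟨0, hn⟩], by simp, by simpa using hN⟩⟩,
    (raw4 B hB N).toBox.closed, hC, ?_, ?_, ?_⟩
  · have h1 := bdim_up (raw4 B hB N).toBox Bool n (fun v => v.1.map Fin.val)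
      (fun v hv => v.2.1 (List.map_eq_nil_iff.mp hv))
      (fun v x hx => by
        obtain ⟨y, _, rfl⟩ := List.mem_map.mp hx
        exact y.2)
      (fun u v huv => Subtype.ext (List.map_injective_iff.mpr Fin.val_injective huv))
      (fun u v => by
        rw [Q1Main_prefix_map]
        exact Iff.rfl)
      (InG B hB N) (fun g c v h => h.1)
      (fun g c u v h huv => InG_I2 B hB N g c u v h huv)
      (fun g c u v hu hv => by
        rw [Q1Main_prefix_map, Q1Main_prefix_map]
        exact InG_I3 B hB N g c u v hu hv)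
      (fun c c' v hc h h' => InG_I4 B hB N c c' v hc h h')
    have h2 : 2 * (4 + 2 * Fintype.card Bool) = 16 := by
      rw [Fintype.card_bool]
    rw [h2] at h1
    exact h1
  · refine ⟨4 + Nat.card (NV n N), ldim_up _ _ (fun c => ?_)⟩
    refine (Set.encard_le_encard (Set.subset_univ _)).trans ?_
    rw [Set.encard_univ, ENat.card_eq_coe_natCard]
  · intro r hr
    by_contra hlt
    push Not at hlt
    apply absurd ?_ (not_le.mpr hlt)
    classical
    refine ldim_low ↥(raw4 B hB N).toBox.closed n N (N * N + 1) r B.Arc hcol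
      (fun u => if h : u ≠ [] ∧ u.length ≤ N then
        ⟨⋂₀ {A ∈ (raw4 B hB N).toBox.closed | (⟨u, h⟩ : NV n N) ∈ A}, cl_closed _ hC _⟩
        else ⟨Set.univ, hC.univ_mem⟩)
      (fun s => if h : s ≠ [] ∧ s.length ≤ N then
        ⟨Eset B hB N ⟨s, h⟩, Eset_closed B hB N ⟨s, h⟩⟩
        else ⟨Set.univ, hC.univ_mem⟩) ?_ ?_ hr ?_
    · intro s u hs hu hus hle
      have hs' : s ≠ [] ∧ s.length ≤ N := by
        refine ⟨?_, hs.le⟩
        rintro rfl
        rw [List.length_nil] at hs
        omega
      have hu' : u ≠ [] ∧ u.length ≤ N := ⟨hu, hus.length_le.trans hs.le⟩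
      simp only [dif_pos hs', dif_pos hu'] at hle
      have h1 : (⟨u, hu'⟩ : NV n N) ∈ Eset B hB N ⟨s, hs'⟩ :=
        hle (show (⟨u, hu'⟩ : NV n N) ∈ ⋂₀ {A ∈ (raw4 B hB N).toBox.closed | (⟨u, hu'⟩ : NV n N) ∈ A}
          from fun A hA => hA.2)
      exact h1.2 hus
    · intro w s i j hij hs hws
      have hs' : s ≠ [] ∧ s.length ≤ N := by
        refine ⟨?_, hs.le⟩
        rintro rfl
        rw [List.length_nil] at hs
        omega
      have hlen := hws.length_le
      have hw' : w ++ [i] ≠ [] ∧ (w ++ [i]).length ≤ N := by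
        refine ⟨by simp, ?_⟩
        simp only [List.length_append, List.length_singleton] at hlen ⊢
        omega
      simp only [dif_pos hs', dif_pos hw']
      have h1 : (⟨w ++ [i], hw'⟩ : NV n N) ∈ Eset B hB N ⟨s, hs'⟩ :=
        Eset_mem B hB N ⟨s, hs'⟩ ⟨w ++ [i], hw'⟩ w i j rfl hws hij
      exact Set.sInter_subset_of_mem ⟨Eset_closed B hB N ⟨s, hs'⟩, h1⟩
    · have : r * N ≤ N * N := Nat.mul_le_mul_right N hlt.le
      omega

end Pool.Agent.CG
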