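import Pool.Agent.Lib.MP_7f572a_co.Defs
set_option autoImplicit false
namespace Pool.Agent.CG

/-! # The recursive construction of the boxes (Burling type): definitions -/

/-- boxes `[x0,x1] × [y0,y1] × [z0,z1]` with a height `h ∈ (z0,z1)` -/
structure Boxes (V : Type) where
  x0 : V → ℝ
  x1 : V → ℝ
  y0 : V → ℝ
  y1 : V → ℝ
  z0 : V → ℝ
  z1 : V → ℝ
  h : V → ℝ

/-- arcs `i → j` (`j` is the newer box) -/
def Boxes.Arc {V : Type} (B : Boxes V) (i j : V) : Prop :=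
  B.x0 j < B.x1 i ∧ B.x1 i < B.x1 j ∧ B.y0 i < B.y0 j ∧ B.y0 j < B.y1 i ∧ B.z0 i < B.z0 j ∧
    B.z0 j < B.z1 i

/-- the boxes `i`, `j` are disjoint -/
def Boxes.Disj {V : Type} (B : Boxes V) (i j : V) : Prop :=
  B.x1 i < B.x0 j ∨ B.x1 j < B.x0 i ∨ B.y1 i < B.y0 j ∨ B.y1 j < B.y0 i ∨ B.z1 i < B.z0 j ∨
    B.z1 j < B.z0 i

structure Boxes.Good {V : Type} (B : Boxes V) : Prop where
  hx : ∀ i, 0 < B.x0 i ∧ B.x0 i < B.x1 i ∧ B.x1 i < 1
  hy : ∀ i, 0 < B.y0 i ∧ B.y0 i < B.y1 i ∧ B.y1 i < 1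
  hz : ∀ i, 0 < B.z0 i ∧ B.z0 i < B.h i ∧ B.h i < B.z1 i ∧ B.z1 i < 1
  sep : ∀ i j, i ≠ j → B.Disj i j ∨ (B.z1 i < B.h j ∧ B.h i < B.z0 j) ∨
    (B.z1 j < B.h i ∧ B.h j < B.z0 i)

/-- probes: a `y`-interval `[u,v]`, a level `s`, and the set `M` of members -/
structure Probes (V P : Type) where
  u : P → ℝ
  v : P → ℝ
  s : P → ℝ
  M : P → Set V

structure ProbeGood {V P : Type} (B : Boxes V) (R : Probes V P) : Prop where
  huv : ∀ p, 0 < R.u p ∧ R.u p < R.v p ∧ R.v p < 1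
  hs : ∀ p, 0 < R.s p ∧ R.s p < 1
  mem : ∀ p j, j ∈ R.M p → B.y0 j < R.u p ∧ R.v p < B.y1 j ∧ B.h j < R.s p ∧ R.s p < B.z1 j
  nmem : ∀ p j, j ∉ R.M p → B.y1 j < R.u p ∨ R.v p < B.y0 j ∨ B.z1 j < R.s p
  disj : ∀ p q, p ≠ q → R.v p < R.u q ∨ R.v q < R.u p

/-- every proper colouring of the arcs has at least `k` colours on the members of some probe -/
def ColProp {V P : Type} (B : Boxes V) (R : Probes V P) (k : ℕ) : Prop :=
  ∀ f : V → ℕ, (∀ i j, B.Arc i j → f i ≠ f j) → ∃ p, k ≤ (f '' R.M p).ncard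

/-- the new set of boxes: the outer copy, the inner copies (one for every probe) and the new boxes
(one for every pair of probes) -/
abbrev StepV (V P : Type) : Type := V ⊕ ((P × V) ⊕ (P × P))

/-- left end, relative to the inner probe `q`, of the strip of the pair `(p,q)` -/
def stripU {V P : Type} (R : Probes V P) (p q : P) : ℝ := R.u p + (R.v p - R.u p) * R.u q

/-- width of the strip of the pair `(p,q)` -/
def stripW {V P : Type} (R : Probes V P) (p q : P) : ℝ := (R.v p - R.u p) * (R.v q - R.u q)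

/-- the new boxes; `ε p` is the gap above the level of the probe `p` -/
noncomputable def stepB {V P : Type} (B : Boxes V) (R : Probes V P) (ε : P → ℝ) :
    Boxes (StepV V P) where
  x0 := Sum.elim (fun j => 1 / 2 + B.x0 j / 2)
    (Sum.elim (fun pj => 1 / 4 + B.x0 pj.2 / 8) (fun _ => 1 / 8))
  x1 := Sum.elim (fun j => 1 / 2 + B.x1 j / 2)
    (Sum.elim (fun pj => 1 / 4 + B.x1 pj.2 / 8) (fun _ => 7 / 16))
  y0 := Sum.elim (fun j => B.y0 j)
    (Sum.elim (fun pj => R.u pj.1 + (R.v pj.1 - R.u pj.1) * B.y0 pj.2)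
      (fun pq => stripU R pq.1 pq.2 + 5 / 8 * stripW R pq.1 pq.2))
  y1 := Sum.elim (fun j => B.y1 j)
    (Sum.elim (fun pj => R.u pj.1 + (R.v pj.1 - R.u pj.1) * B.y1 pj.2)
      (fun pq => stripU R pq.1 pq.2 + 7 / 8 * stripW R pq.1 pq.2))
  z0 := Sum.elim (fun j => B.z0 j)
    (Sum.elim (fun pj => R.s pj.1 + ε pj.1 / 4 * B.z0 pj.2)
      (fun pq => R.s pq.1 + ε pq.1 / 4 * R.s pq.2))
  z1 := Sum.elim (fun j => B.z1 j)
    (Sum.elim (fun pj => R.s pj.1 + ε pj.1 / 4 * B.z1 pj.2)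
      (fun pq => R.s pq.1 + 3 / 4 * ε pq.1))
  h := Sum.elim (fun j => B.h j)
    (Sum.elim (fun pj => R.s pj.1 + ε pj.1 / 4 * B.h pj.2)
      (fun pq => R.s pq.1 + 3 / 8 * ε pq.1))

/-- the new probes: a lower one (`false`) and an upper one (`true`) for every pair of probes -/
noncomputable def stepR {V P : Type} (R : Probes V P) (ε : P → ℝ) :
    Probes (StepV V P) ((P × P) × Bool) where
  u := fun r => stripU R r.1.1 r.1.2 + (if r.2 then 11 / 16 else 1 / 8) * stripW R r.1.1 r.1.2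
  v := fun r => stripU R r.1.1 r.1.2 + (if r.2 then 13 / 16 else 3 / 8) * stripW R r.1.1 r.1.2
  s := fun r => if r.2 then R.s r.1.1 + ε r.1.1 / 2 else R.s r.1.1 + ε r.1.1 / 4 * R.s r.1.2
  M := fun r => {w | (∃ j ∈ R.M r.1.1, w = Sum.inl j) ∨
    (if r.2 then w = Sum.inr (Sum.inr r.1) else ∃ j ∈ R.M r.1.2, w = Sum.inr (Sum.inl (r.1.1, j)))}

/-- conditions on the gaps -/
structure GapGood {V P : Type} (B : Boxes V) (R : Probes V P) (ε : P → ℝ) : Prop where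
  pos : ∀ p, 0 < ε p
  lt_one : ∀ p, R.s p + ε p < 1
  gap : ∀ p j, R.s p < B.z1 j → R.s p + ε p < B.z1 j

end Pool.Agent.CG
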