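import Pool.Agent.Lib.MP_7f572a_co.TB
import Pool.Agent.Lib.MP_7f572a_co.Rec
set_option autoImplicit false
namespace Pool.Agent.CG

/-- The family of the boxes in `ℝ³` (no ancestors). -/
noncomputable def raw3 {n : ℕ} (B : Boxes (Fin n)) : RawFam (Fin n) 3 ℝ where
  m := n
  e := Equiv.refl _
  a0 := fun v => ![B.x0 v, B.y0 v, B.z0 v]
  b0 := fun v => ![B.x1 v, B.y1 v, B.z1 v]
  anc := fun _ _ => False
  anc_a0 := fun _ _ h => h.elim
  anc_irrefl := fun _ h => h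
  anc_trans := fun _ _ _ h _ => h.elim

/-- for two different boxes containing `(x,y,z)` exactly one of the heights is above `z` -/
private theorem q2a_two {n : ℕ} (B : Boxes (Fin n)) (hB : B.Good) (x y z : ℝ) (i j : Fin n)
    (hij : i ≠ j)
    (hi : B.x0 i ≤ x ∧ x ≤ B.x1 i ∧ B.y0 i ≤ y ∧ y ≤ B.y1 i ∧ B.z0 i ≤ z ∧ z ≤ B.z1 i)
    (hj : B.x0 j ≤ x ∧ x ≤ B.x1 j ∧ B.y0 j ≤ y ∧ y ≤ B.y1 j ∧ B.z0 j ≤ z ∧ z ≤ B.z1 j) :
    (B.h i < z ∧ z < B.h j) ∨ (B.h j < z ∧ z < B.h i) := by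
  obtain ⟨a1, a2, a3, a4, a5, a6⟩ := hi
  obtain ⟨b1, b2, b3, b4, b5, b6⟩ := hj
  rcases hB.sep i j hij with h | h | h
  · exfalso
    rcases h with h | h | h | h | h | h <;> linarith
  · left
    constructor <;> linarith [h.1, h.2]
  · right
    constructor <;> linarith [h.1, h.2]

/-- JOB Q2A (this file: 2 theorems).  At most two boxes contain a real point: let `i ≠ j` both contain
`(x,y,z)`; `sep` gives (as the boxes are not disjoint) `z < h j ∧ h i < z` or `z < h i ∧ h j < z`, i.e.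
exactly one of `z < h i`, `z < h j` holds.  Impossible for three pairwise different boxes. -/
theorem no_three {n : ℕ} (B : Boxes (Fin n)) (hB : B.Good) (x y z : ℝ) (i j k : Fin n)
    (hij : i ≠ j) (hjk : j ≠ k) (hik : i ≠ k)
    (h : ∀ l ∈ ({i, j, k} : Set (Fin n)), B.x0 l ≤ x ∧ x ≤ B.x1 l ∧ B.y0 l ≤ y ∧ y ≤ B.y1 l ∧
      B.z0 l ≤ z ∧ z ≤ B.z1 l) : False := by
  have hi := h i (by simp)
  have hj := h j (by simp)
  have hk := h k (by simp)
  rcases q2a_two B hB x y z i j hij hi hj with h1 | h1 <;>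
  rcases q2a_two B hB x y z j k hjk hj hk with h2 | h2 <;>
  rcases q2a_two B hB x y z i k hik hi hk with h3 | h3 <;>
  linarith [h1.1, h1.2, h2.1, h2.2, h3.1, h3.2]

/-- Hence `{v | InBox c v}` has at most two elements (`toBox_inBox`; three different elements would
contradict `no_three`; `Set.encard_le_two`-type lemma or `Set.two_lt_encard`). -/
theorem depth_le_two {n : ℕ} (B : Boxes (Fin n)) (hB : B.Good)
    (c : Fin 3 → WithBot (ℝ ×ₗ ℕ)) : {v | (raw3 B).toBox.InBox c v}.encard ≤ 2 := by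
  by_contra hcon
  rw [not_le] at hcon
  set s : Set (Fin n) := {v | (raw3 B).toBox.InBox c v} with hs
  have hfin : s.Finite := Set.toFinite s
  have hcon2 : 2 < s.ncard := by
    rw [← hfin.cast_ncard_eq] at hcon
    exact_mod_cast hcon
  obtain ⟨i, j, k, hi, hj, hk, hij, hik, hjk⟩ := (Set.two_lt_ncard_iff hfin).1 hcon2
  obtain ⟨x, hx, -, -⟩ := toBox_inBox (raw3 B) c i hi 0
  obtain ⟨y, hy, -, -⟩ := toBox_inBox (raw3 B) c i hi 1
  obtain ⟨z, hz, -, -⟩ := toBox_inBox (raw3 B) c i hi 2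
  have key : ∀ l ∈ s, B.x0 l ≤ x ∧ x ≤ B.x1 l ∧ B.y0 l ≤ y ∧ y ≤ B.y1 l ∧
      B.z0 l ≤ z ∧ z ≤ B.z1 l := by
    intro l hl
    obtain ⟨x', hx', h1, h2⟩ := toBox_inBox (raw3 B) c l hl 0
    obtain ⟨y', hy', h3, h4⟩ := toBox_inBox (raw3 B) c l hl 1
    obtain ⟨z', hz', h5, h6⟩ := toBox_inBox (raw3 B) c l hl 2
    rw [hx, WithBot.coe_inj] at hx'
    rw [hy, WithBot.coe_inj] at hy'
    rw [hz, WithBot.coe_inj] at hz'
    subst hx' hy' hz'
    exact ⟨h1, h2, h3, h4, h5, h6⟩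
  refine no_three B hB x y z i j k hij hjk hik ?_
  intro l hl
  rcases hl with rfl | rfl | rfl
  · exact key _ hi
  · exact key _ hj
  · exact key _ hk

end Pool.Agent.CG
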