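import Pool.Agent.Lib.MP_7f572a_co.Q2A
set_option autoImplicit false
namespace Pool.Agent.CG

/-- the point of an arc `i → j` -/
noncomputable def arcPt {n : ℕ} (B : Boxes (Fin n)) (e : Fin n × Fin n) :
    Fin 3 → WithBot (ℝ ×ₗ ℕ) :=
  fun k => tb ((![B.x1 e.1, B.y0 e.2, B.z0 e.2] : Fin 3 → ℝ) k) n

/-- the two closed sets of an arc -/
def arcA {n : ℕ} (B : Boxes (Fin n)) (e : Fin n × Fin n) : Set (Fin n) :=
  {v | (raw3 B).toBox.a v ≤ arcPt B e}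

/-- `arcA` without the tail -/
def arcB {n : ℕ} (B : Boxes (Fin n)) (e : Fin n × Fin n) : Set (Fin n) := arcA B e \ {e.1}


private lemma Q2B_mem {n : ℕ} (B : Boxes (Fin n)) (e : Fin n × Fin n) (v : Fin n) :
    v ∈ arcA B e ↔ B.x0 v ≤ B.x1 e.1 ∧ B.y0 v ≤ B.y0 e.2 ∧ B.z0 v ≤ B.z0 e.2 := by
  have h := toBox_a_le_tb (raw3 B) v (![B.x1 e.1, B.y0 e.2, B.z0 e.2] : Fin 3 → ℝ)
  have h2 : v ∈ arcA B e ↔
      (raw3 B).toBox.a v ≤ (fun k => tb ((![B.x1 e.1, B.y0 e.2, B.z0 e.2] : Fin 3 → ℝ) k) (raw3 B).m) :=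
    Iff.rfl
  rw [h2, h, Fin.forall_fin_succ, Fin.forall_fin_succ, Fin.forall_fin_succ]
  simp [raw3]

private lemma Q2B_le_b {n : ℕ} (B : Boxes (Fin n)) (e : Fin n × Fin n) (he : B.Arc e.1 e.2) :
    arcPt B e ≤ (raw3 B).toBox.b e.1 := by
  obtain ⟨h1, h2, h3, h4, h5, h6⟩ := he
  intro k
  show tb _ _ ≤ tb _ _
  rw [tb_le_tb]
  fin_cases k
  · right; exact ⟨rfl, le_refl n⟩
  · left; exact h4
  · left; exact h6

/-- JOB Q2B (this file: 3 theorems).  Both are closed, valid at the point `arcPt B e`: for `arcB` the only missing box is `e.1`, and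
`arcPt B e ≤ b e.1` by `Arc` (`x1 i ≤ x1 i`, `y0 j ≤ y1 i`, `z0 j ≤ z1 i`). -/
theorem arc_closed {n : ℕ} (B : Boxes (Fin n)) (e : Fin n × Fin n) (he : B.Arc e.1 e.2) :
    arcA B e ∈ (raw3 B).toBox.closed ∧ arcB B e ∈ (raw3 B).toBox.closed := by
  constructor
  · refine ⟨arcPt B e, fun v hv => hv, fun v hv hv' => (hv' hv).elim⟩
  · refine ⟨arcPt B e, fun v hv => hv.1, fun v hv hv' => ?_⟩
    have hve : v = e.1 := by
      by_contra hne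
      exact hv' ⟨hv, hne⟩
    refine ⟨?_, fun u hu => (show False from hu).elim⟩
    rw [hve]
    exact Q2B_le_b B e he

/-- Consecutive arcs `i → j → l`: `arcA` increases (`x1 i ≤ x1 j`, `y0 j ≤ y0 l`, `z0 j ≤ z0 l`), and
`j ∈ arcB (i,j)` (`j ≠ i`; `x0 j ≤ x1 i`), `j ∉ arcB (j,l)`. -/
theorem arc_adj {n : ℕ} (B : Boxes (Fin n)) (hB : B.Good) (i j l : Fin n) (h : B.Arc i j)
    (h' : B.Arc j l) : arcA B (i, j) ⊆ arcA B (j, l) ∧ ¬ arcB B (i, j) ⊆ arcB B (j, l) := by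
  obtain ⟨h1, h2, h3, h4, h5, h6⟩ := h
  obtain ⟨k1, k2, k3, k4, k5, k6⟩ := h'
  constructor
  · intro v hv
    rw [Q2B_mem] at hv ⊢
    simp only at hv ⊢
    exact ⟨hv.1.trans h2.le, hv.2.1.trans k3.le, hv.2.2.trans k5.le⟩
  · intro hsub
    have hj : j ∈ arcB B (i, j) := by
      refine ⟨?_, ?_⟩
      · rw [Q2B_mem]
        exact ⟨h1.le, le_refl _, le_refl _⟩
      · intro hji
        have hji' : j = i := hji
        rw [hji'] at h2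
        exact lt_irrefl _ h2
    exact (hsub hj).2 rfl

/-- No three pairwise adjacent arcs.  If `arcA e ⊆ arcA e'` and `¬ arcB e ⊆ arcB e'`, then
`e'.1 ∈ arcA e` and `e'.1 ≠ e.1` (an element of `arcB e \ arcB e'` lies in `arcA e'`, so it is `e'.1`).
So the three tails `i₁, i₂, i₃` are pairwise different and lie in `arcA e₁ ⊆ arcA e_t`, which gives
`a0 i_s ≤ (x1 i_t, y0 _, z0 _) ≤ b0 i_t` coordinatewise for all `s`, `t` (`toBox_a_le_tb`, `Arc`).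
So the coordinatewise maximum of the three lower corners lies in the three boxes: `no_three`. -/
theorem arc_no_three {n : ℕ} (B : Boxes (Fin n)) (hB : B.Good) (e₁ e₂ e₃ : Fin n × Fin n)
    (h₁ : B.Arc e₁.1 e₁.2) (h₂ : B.Arc e₂.1 e₂.2) (h₃ : B.Arc e₃.1 e₃.2)
    (h12 : arcA B e₁ ⊆ arcA B e₂ ∧ ¬ arcB B e₁ ⊆ arcB B e₂)
    (h23 : arcA B e₂ ⊆ arcA B e₃ ∧ ¬ arcB B e₂ ⊆ arcB B e₃)
    (h13 : arcA B e₁ ⊆ arcA B e₃ ∧ ¬ arcB B e₁ ⊆ arcB B e₃) : False := by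
  have key : ∀ e e' : Fin n × Fin n, arcA B e ⊆ arcA B e' ∧ ¬ arcB B e ⊆ arcB B e' →
      e'.1 ∈ arcA B e ∧ e'.1 ≠ e.1 := by
    intro e e' h
    obtain ⟨v, hv, hv'⟩ := Set.not_subset.mp h.2
    have hve : v = e'.1 := by
      by_contra hne
      exact hv' ⟨h.1 hv.1, hne⟩
    rw [hve] at hv
    exact ⟨hv.1, hv.2⟩
  have own : ∀ e : Fin n × Fin n, B.Arc e.1 e.2 → e.1 ∈ arcA B e := by
    intro e he
    obtain ⟨h1, h2, h3, h4, h5, h6⟩ := he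
    rw [Q2B_mem]
    exact ⟨(hB.hx e.1).2.1.le, h3.le, h5.le⟩
  obtain ⟨a12, n12⟩ := key _ _ h12
  obtain ⟨a23, n23⟩ := key _ _ h23
  obtain ⟨a13, n13⟩ := key _ _ h13
  have all1 : ∀ l ∈ ({e₁.1, e₂.1, e₃.1} : Set (Fin n)), l ∈ arcA B e₁ := by
    intro l hl
    rcases hl with rfl | rfl | rfl
    · exact own _ h₁
    · exact a12
    · exact a13
  have up : ∀ e : Fin n × Fin n, B.Arc e.1 e.2 → arcA B e₁ ⊆ arcA B e →
      ∀ l ∈ ({e₁.1, e₂.1, e₃.1} : Set (Fin n)),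
        B.x0 l ≤ B.x1 e.1 ∧ B.y0 l ≤ B.y1 e.1 ∧ B.z0 l ≤ B.z1 e.1 := by
    intro e he hsub l hl
    have hm := hsub (all1 l hl)
    rw [Q2B_mem] at hm
    obtain ⟨g1, g2, g3, g4, g5, g6⟩ := he
    exact ⟨hm.1, hm.2.1.trans g4.le, hm.2.2.trans g6.le⟩
  have i1 : e₁.1 ∈ ({e₁.1, e₂.1, e₃.1} : Set (Fin n)) := by simp
  have i2 : e₂.1 ∈ ({e₁.1, e₂.1, e₃.1} : Set (Fin n)) := by simp
  have i3 : e₃.1 ∈ ({e₁.1, e₂.1, e₃.1} : Set (Fin n)) := by simp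
  have upall : ∀ l ∈ ({e₁.1, e₂.1, e₃.1} : Set (Fin n)),
      ∀ m ∈ ({e₁.1, e₂.1, e₃.1} : Set (Fin n)),
        B.x0 m ≤ B.x1 l ∧ B.y0 m ≤ B.y1 l ∧ B.z0 m ≤ B.z1 l := by
    intro l hl
    rcases hl with rfl | rfl | rfl
    · exact up e₁ h₁ (fun _ h => h)
    · exact up e₂ h₂ h12.1
    · exact up e₃ h₃ h13.1
  refine no_three B hB (max (B.x0 e₁.1) (max (B.x0 e₂.1) (B.x0 e₃.1)))
    (max (B.y0 e₁.1) (max (B.y0 e₂.1) (B.y0 e₃.1)))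
    (max (B.z0 e₁.1) (max (B.z0 e₂.1) (B.z0 e₃.1))) e₁.1 e₂.1 e₃.1
    (Ne.symm n12) (Ne.symm n23) (Ne.symm n13) ?_
  intro l hl
  have hu := upall l hl
  have u1 := hu _ i1
  have u2 := hu _ i2
  have u3 := hu _ i3
  refine ⟨?_, max_le u1.1 (max_le u2.1 u3.1), ?_, max_le u1.2.1 (max_le u2.2.1 u3.2.1), ?_,
    max_le u1.2.2 (max_le u2.2.2 u3.2.2)⟩
  all_goals
    rcases hl with rfl | rfl | rfl
    · exact le_max_left _ _
    · exact (le_max_left _ _).trans (le_max_right _ _)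
    · exact (le_max_right _ _).trans (le_max_right _ _)

end Pool.Agent.CG
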