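import Pool.Agent.Lib.MP_7f572a_co.Rec
set_option autoImplicit false
namespace Pool.Agent.CG

/-- JOB RecA (this file: 4 theorems).  `ε p` = half of the minimum of `1 - s p` and of the numbers
`z1 j - s p > 0`, `j ∈ V` finite. -/
theorem exists_gap {V P : Type} [Finite V] (B : Boxes V) (R : Probes V P) (hR : ProbeGood B R) :
    ∃ ε : P → ℝ, GapGood B R ε := by
  have h : ∀ p, ∃ e : ℝ, 0 < e ∧ R.s p + e < 1 ∧ ∀ j, R.s p < B.z1 j → R.s p + e < B.z1 j := by
    intro p
    have hev : ∀ c : ℝ, R.s p < c → ∀ᶠ e in nhdsWithin (0 : ℝ) (Set.Ioi 0), R.s p + e < c := by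
      intro c hc
      apply Filter.Eventually.filter_mono nhdsWithin_le_nhds
      have h1 : ContinuousAt (fun e : ℝ => R.s p + e) 0 := by fun_prop
      have h2 : R.s p + 0 < c := by linarith
      exact h1.eventually_lt continuousAt_const h2
    have h1 : ∀ᶠ e in nhdsWithin (0 : ℝ) (Set.Ioi 0), 0 < e := self_mem_nhdsWithin
    have h2 := hev 1 (hR.hs p).2
    have h3 : ∀ᶠ e in nhdsWithin (0 : ℝ) (Set.Ioi 0), ∀ j, R.s p < B.z1 j → R.s p + e < B.z1 j := by
      rw [Filter.eventually_all]
      intro j
      by_cases hj : R.s p < B.z1 j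
      · filter_upwards [hev _ hj] with e he _ using he
      · exact Filter.Eventually.of_forall (fun e h => absurd h hj)
    exact (h1.and (h2.and h3)).exists
  choose ε h1 h2 h3 using h
  exact ⟨ε, h1, h2, h3⟩

/-- bounds for strips: the strip of `(p,q)` lies inside the interval `[u p, v p]`, and the strips are
ordered like the inner probes. -/
theorem strip_bounds {V P : Type} (B : Boxes V) (R : Probes V P) (hR : ProbeGood B R) (p q : P) :
    R.u p < stripU R p q ∧ 0 < stripW R p q ∧ stripU R p q + stripW R p q < R.v p ∧
      stripU R p q + stripW R p q = R.u p + (R.v p - R.u p) * R.v q := by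
  obtain ⟨p1, p2, p3⟩ := hR.huv p
  obtain ⟨q1, q2, q3⟩ := hR.huv q
  have hd : 0 < R.v p - R.u p := by linarith
  have h1 : 0 < (R.v p - R.u p) * R.u q := mul_pos hd q1
  have h2 : 0 < (R.v p - R.u p) * (R.v q - R.u q) := mul_pos hd (by linarith)
  have h3 : 0 < (R.v p - R.u p) * (1 - R.v q) := mul_pos hd (by linarith)
  unfold stripU stripW
  refine ⟨by linarith, h2, by nlinarith, by ring⟩

/-- strips of different pairs are disjoint -/
theorem strip_disj {V P : Type} (B : Boxes V) (R : Probes V P) (hR : ProbeGood B R) (p q p' q' : P)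
    (h : (p, q) ≠ (p', q')) : stripU R p q + stripW R p q < stripU R p' q' ∨
      stripU R p' q' + stripW R p' q' < stripU R p q := by
  obtain ⟨a1, a2, a3, a4⟩ := strip_bounds B R hR p q
  obtain ⟨b1, b2, b3, b4⟩ := strip_bounds B R hR p' q'
  by_cases hp : p = p'
  · subst hp
    have hq : q ≠ q' := fun h0 => h (by rw [h0])
    obtain ⟨p1, p2, p3⟩ := hR.huv p
    have hd : 0 < R.v p - R.u p := by linarith
    rw [a4, b4]
    unfold stripU
    rcases hR.disj q q' hq with h1 | h1
    · left
      have := mul_lt_mul_of_pos_left h1 hd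
      linarith
    · right
      have := mul_lt_mul_of_pos_left h1 hd
      linarith
  · rcases hR.disj p p' hp with h1 | h1
    · left; linarith
    · right; linarith

/-- separation predicate -/
private def recA_Sep {V : Type} (B : Boxes V) (i j : V) : Prop :=
  B.Disj i j ∨ (B.z1 i < B.h j ∧ B.h i < B.z0 j) ∨ (B.z1 j < B.h i ∧ B.h j < B.z0 i)

private theorem recA_symm {V : Type} {B : Boxes V} {i j : V} (h : recA_Sep B i j) :
    recA_Sep B j i := by
  unfold recA_Sep Boxes.Disj at *
  tauto

private theorem recA_aff {c d x y : ℝ} (hd : 0 < d) (h : x < y) : c + d * x < c + d * y := by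
  have := mul_lt_mul_of_pos_left h hd
  linarith

/-- The new boxes are good.  (`hx`, `hy`, `hz` are immediate.)  `sep` for two different boxes:
* outer/outer: from `B.sep` (the `x`-coordinates are changed by an increasing affine map);
* outer/inner and outer/new: `x1` of inner `< 3/8 < 1/2`, `7/16 < 1/2 <` `x0` of outer: disjoint;
* inner `(p,i)` / inner `(p,j)`: from `B.sep i j` by the increasing affine maps;
* inner `(p,i)` / inner `(p',j)`, `p ≠ p'`: `y`-disjoint, `R.disj`, `0 < y0`, `y1 < 1`;
* inner `(p,i)` / new `(p',q)`, `p ≠ p'`: `y`-disjoint (`strip_bounds`, `R.disj`);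
* inner `(p,i)` / new `(p,q)`: if `i ∈ M q`: `z1 i < 1` gives `z1' < s p + ε p / 4 < h'` of the new box,
  and `h i < s q` (`mem`) gives `h' < z0'` of the new box: second alternative of `sep` (`i` inner, `j`
  new); if `i ∉ M q`, `nmem` gives `y`-disjoint or `z1' < z0'`;
* new / new: `y`-disjoint by `strip_disj`. -/
theorem step_good {V P : Type} (B : Boxes V) (R : Probes V P) (ε : P → ℝ) (hB : B.Good)
    (hR : ProbeGood B R) (hε : GapGood B R ε) : (stepB B R ε).Good := by
  have hd : ∀ p, 0 < R.v p - R.u p := fun p => by
    obtain ⟨p1, p2, p3⟩ := hR.huv p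
    linarith
  have he4 : ∀ p, 0 < ε p / 4 := fun p => by
    have := hε.pos p
    linarith
  -- bounds of the inner copies
  have hy0 : ∀ p j, R.u p < R.u p + (R.v p - R.u p) * B.y0 j := fun p j => by
    have := mul_pos (hd p) (hB.hy j).1
    linarith
  have hy01 : ∀ p j, R.u p + (R.v p - R.u p) * B.y0 j < R.u p + (R.v p - R.u p) * B.y1 j :=
    fun p j => recA_aff (hd p) (hB.hy j).2.1
  have hy1 : ∀ p j, R.u p + (R.v p - R.u p) * B.y1 j < R.v p := fun p j => by
    have := mul_lt_mul_of_pos_left (hB.hy j).2.2 (hd p)
    linarith
  constructor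
  · rintro (i | ⟨p, i⟩ | ⟨p, q⟩)
    · obtain ⟨a, b, c⟩ := hB.hx i
      simp only [stepB, Sum.elim_inl]
      refine ⟨by linarith, by linarith, by linarith⟩
    · obtain ⟨a, b, c⟩ := hB.hx i
      simp only [stepB, Sum.elim_inl, Sum.elim_inr]
      refine ⟨by linarith, by linarith, by linarith⟩
    · simp only [stepB, Sum.elim_inr]
      norm_num
  · rintro (i | ⟨p, i⟩ | ⟨p, q⟩)
    · exact hB.hy i
    · obtain ⟨p1, p2, p3⟩ := hR.huv p
      have h1 := hy0 p i
      have h2 := hy01 p i
      have h3 := hy1 p i
      simp only [stepB, Sum.elim_inl, Sum.elim_inr]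
      refine ⟨by linarith, by linarith, by linarith⟩
    · obtain ⟨p1, p2, p3⟩ := hR.huv p
      obtain ⟨a1, a2, a3, a4⟩ := strip_bounds B R hR p q
      simp only [stepB, Sum.elim_inr]
      refine ⟨by linarith, by linarith, by linarith⟩
  · rintro (i | ⟨p, i⟩ | ⟨p, q⟩)
    · exact hB.hz i
    · obtain ⟨a, b, c, d⟩ := hB.hz i
      have h1 := mul_pos (he4 p) a
      have h2 := mul_lt_mul_of_pos_left b (he4 p)
      have h3 := mul_lt_mul_of_pos_left c (he4 p)
      have h4 := mul_lt_mul_of_pos_left d (he4 p)
      have h5 := (hR.hs p).1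
      have h6 := hε.lt_one p
      have h7 := hε.pos p
      simp only [stepB, Sum.elim_inl, Sum.elim_inr]
      refine ⟨by linarith, by linarith, by linarith, by linarith⟩
    · have h1 := mul_pos (he4 p) (hR.hs q).1
      have h4 := mul_lt_mul_of_pos_left (hR.hs q).2 (he4 p)
      have h5 := (hR.hs p).1
      have h6 := hε.lt_one p
      have h7 := hε.pos p
      simp only [stepB, Sum.elim_inr]
      refine ⟨by linarith, by linarith, by linarith, by linarith⟩
  · -- separation
    have hOI : ∀ (i : V) (w : (P × V) ⊕ (P × P)), recA_Sep (stepB B R ε) (Sum.inl i) (Sum.inr w) := by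
      intro i w
      left
      right; left
      obtain ⟨a, b, c⟩ := hB.hx i
      rcases w with ⟨p, j⟩ | ⟨p, q⟩
      · obtain ⟨a', b', c'⟩ := hB.hx j
        simp only [stepB, Sum.elim_inl, Sum.elim_inr]
        linarith
      · simp only [stepB, Sum.elim_inl, Sum.elim_inr]
        linarith
    have hOO : ∀ i j : V, i ≠ j → recA_Sep (stepB B R ε) (Sum.inl i) (Sum.inl j) := by
      intro i j hij
      have h1 := hB.sep i j hij
      unfold recA_Sep Boxes.Disj
      unfold Boxes.Disj at h1
      simp only [stepB, Sum.elim_inl]
      rcases h1 with (h | h | h) | h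
      · left; left; linarith
      · left; right; left; linarith
      · left; right; right; exact h
      · right; exact h
    have hII : ∀ p p' i j, (p, i) ≠ (p', j) →
        recA_Sep (stepB B R ε) (Sum.inr (Sum.inl (p, i))) (Sum.inr (Sum.inl (p', j))) := by
      intro p p' i j hne
      by_cases hp : p = p'
      · subst hp
        have hij : i ≠ j := fun h0 => hne (by rw [h0])
        have h1 := hB.sep i j hij
        unfold recA_Sep Boxes.Disj
        unfold Boxes.Disj at h1
        simp only [stepB, Sum.elim_inl, Sum.elim_inr]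
        rcases h1 with (h | h | h | h | h | h) | ⟨h, h'⟩ | ⟨h, h'⟩
        · left; left; linarith
        · left; right; left; linarith
        · left; right; right; left; exact recA_aff (hd p) h
        · left; right; right; right; left; exact recA_aff (hd p) h
        · left; right; right; right; right; left; exact recA_aff (he4 p) h
        · left; right; right; right; right; right; exact recA_aff (he4 p) h
        · right; left; exact ⟨recA_aff (he4 p) h, recA_aff (he4 p) h'⟩
        · right; right; exact ⟨recA_aff (he4 p) h, recA_aff (he4 p) h'⟩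
      · left
        unfold Boxes.Disj
        simp only [stepB, Sum.elim_inl, Sum.elim_inr]
        have h1 := hy0 p i
        have h2 := hy1 p i
        have h3 := hy0 p' j
        have h4 := hy1 p' j
        rcases hR.disj p p' hp with h | h
        · right; right; left; linarith
        · right; right; right; left; linarith
    have hIN : ∀ p p' i q,
        recA_Sep (stepB B R ε) (Sum.inr (Sum.inl (p, i))) (Sum.inr (Sum.inr (p', q))) := by
      intro p p' i q
      obtain ⟨a1, a2, a3, a4⟩ := strip_bounds B R hR p' q
      have h1 := hy0 p i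
      have h2 := hy1 p i
      by_cases hp : p = p'
      · subst hp
        by_cases hm : i ∈ R.M q
        · obtain ⟨m1, m2, m3, m4⟩ := hR.mem q i hm
          right; left
          simp only [stepB, Sum.elim_inl, Sum.elim_inr]
          refine ⟨?_, recA_aff (he4 p) m3⟩
          have h5 := mul_lt_mul_of_pos_left (hB.hz i).2.2.2 (he4 p)
          have h6 := hε.pos p
          linarith
        · left
          unfold Boxes.Disj
          simp only [stepB, Sum.elim_inl, Sum.elim_inr]
          rcases hR.nmem q i hm with h | h | h
          · right; right; left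
            have := mul_lt_mul_of_pos_left h (hd p)
            unfold stripU at *
            linarith
          · right; right; right; left
            have := mul_lt_mul_of_pos_left h (hd p)
            linarith
          · right; right; right; right; left
            exact recA_aff (he4 p) h
      · left
        unfold Boxes.Disj
        simp only [stepB, Sum.elim_inl, Sum.elim_inr]
        rcases hR.disj p p' hp with h | h
        · right; right; left; linarith
        · right; right; right; left; linarith
    have hNN : ∀ p p' q q', (p, q) ≠ (p', q') →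
        recA_Sep (stepB B R ε) (Sum.inr (Sum.inr (p, q))) (Sum.inr (Sum.inr (p', q'))) := by
      intro p p' q q' hne
      obtain ⟨a1, a2, a3, a4⟩ := strip_bounds B R hR p q
      obtain ⟨b1, b2, b3, b4⟩ := strip_bounds B R hR p' q'
      left
      unfold Boxes.Disj
      simp only [stepB, Sum.elim_inr]
      rcases strip_disj B R hR p q p' q' hne with h | h
      · right; right; left; linarith
      · right; right; right; left; linarith
    rintro (i | ⟨p, i⟩ | ⟨p, q⟩) (j | ⟨p', j⟩ | ⟨p', q'⟩) hne
    · exact hOO i j (fun h0 => hne (by rw [h0]))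
    · exact hOI i _
    · exact hOI i _
    · exact recA_symm (hOI j _)
    · exact hII p p' i j (fun h0 => hne (by rw [h0]))
    · exact hIN p p' i q'
    · exact recA_symm (hOI j _)
    · exact recA_symm (hIN p' p j q)
    · exact hNN p p' q q' (fun h0 => hne (by rw [h0]))

end Pool.Agent.CG
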