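import Pool.Agent.Lib.MP_7f572a_co.Geo
set_option autoImplicit false
namespace Pool.Agent.CG

variable {V : Type} {d : ℕ} {β : Type} [LinearOrder β]

theorem tb_le_tb (y y' : β) (r r' : ℕ) : tb y r ≤ tb y' r' ↔ y < y' ∨ (y = y' ∧ r ≤ r') := by
  unfold tb
  rw [WithBot.coe_le_coe, Prod.Lex.toLex_le_toLex]

theorem tb_inj (y y' : β) (r r' : ℕ) (h : tb y r = tb y' r') : y = y' ∧ r = r' := by
  unfold tb at h
  rw [WithBot.coe_inj] at h
  have := toLex.injective h
  exact ⟨congrArg Prod.fst this, congrArg Prod.snd this⟩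

/-- the box family of raw data, with tie breaking by the numbering `e` -/
noncomputable def RawFam.toBox (R : RawFam V d β) : BoxFam V d (WithBot (β ×ₗ ℕ)) where
  a := fun v k => tb (R.a0 v k) (R.e v : ℕ)
  b := fun v k => tb (R.b0 v k) R.m
  anc := R.anc
  a_inj := by
    intro k u v h
    have h1 := (tb_inj _ _ _ _ h).2
    exact R.e.injective (Fin.ext h1)
  a_pos := by
    intro v k
    exact WithBot.coe_ne_bot
  anc_a := by
    intro u v h k
    show tb _ _ ≤ tb _ _
    rw [tb_le_tb]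
    exact Or.inl (R.anc_a0 u v h k)
  anc_irrefl := R.anc_irrefl
  anc_trans := R.anc_trans

/-- JOB TB (this file: 5 theorems).  Note `pr (tb y r) = ↑y`, and `pr` is monotone
(`Prod.Lex.toLex_le_toLex`). -/
theorem pr_tb (y : β) (r : ℕ) : pr (tb y r) = (y : WithBot β) := rfl

theorem pr_mono (c c' : WithBot (β ×ₗ ℕ)) (h : c ≤ c') : pr c ≤ pr c' := by
  induction c using WithBot.recBotCoe with
  | bot => exact bot_le
  | coe p =>
    induction c' using WithBot.recBotCoe with
    | bot => exact absurd h (WithBot.not_coe_le_bot p)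
    | coe p' =>
      rw [WithBot.coe_le_coe] at h
      unfold pr
      rw [WithBot.map_coe, WithBot.map_coe, WithBot.coe_le_coe]
      rcases (Prod.Lex.le_iff).1 h with h1 | h1
      · exact h1.le
      · exact h1.1.le

/-- `a u ≤ b v` in the tie-broken coordinates iff `a0 u ≤ b0 v` (`e u < m`). -/
theorem toBox_a_le_b (R : RawFam V d β) (u v : V) :
    R.toBox.a u ≤ R.toBox.b v ↔ ∀ k, R.a0 u k ≤ R.b0 v k := by
  rw [Pi.le_def]
  refine forall_congr' fun k => ?_
  show tb _ _ ≤ tb _ _ ↔ _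
  rw [tb_le_tb]
  have h1 : (R.e u : ℕ) ≤ R.m := (R.e u).2.le
  constructor
  · rintro (h | h)
    · exact h.le
    · exact h.1.le
  · intro h
    rcases h.lt_or_eq with h2 | h2
    · exact Or.inl h2
    · exact Or.inr ⟨h2, h1⟩

/-- lower corner below a point of the form `tb (c k) m` -/
theorem toBox_a_le_tb (R : RawFam V d β) (u : V) (c : Fin d → β) :
    R.toBox.a u ≤ (fun k => tb (c k) R.m) ↔ ∀ k, R.a0 u k ≤ c k := by
  rw [Pi.le_def]
  refine forall_congr' fun k => ?_
  show tb _ _ ≤ tb _ _ ↔ _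
  rw [tb_le_tb]
  have h1 : (R.e u : ℕ) ≤ R.m := (R.e u).2.le
  constructor
  · rintro (h | h)
    · exact h.le
    · exact h.1.le
  · intro h
    rcases h.lt_or_eq with h2 | h2
    · exact Or.inl h2
    · exact Or.inr ⟨h2, h1⟩

/-- A point in the box `v` has raw coordinates in the raw box: for every `k` there is `y` with
`pr (c k) = ↑y`, `a0 v k ≤ y ≤ b0 v k`. -/
theorem toBox_inBox (R : RawFam V d β) (c : Fin d → WithBot (β ×ₗ ℕ)) (v : V)
    (h : R.toBox.InBox c v) (k : Fin d) :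
    ∃ y : β, pr (c k) = (y : WithBot β) ∧ R.a0 v k ≤ y ∧ y ≤ R.b0 v k := by
  have h1 : tb (R.a0 v k) (R.e v : ℕ) ≤ c k := h.1 k
  have h2 : c k ≤ tb (R.b0 v k) R.m := h.2 k
  have h1' := pr_mono _ _ h1
  have h2' := pr_mono _ _ h2
  rw [pr_tb] at h1' h2'
  have hne : pr (c k) ≠ ⊥ := by
    intro h0
    rw [h0] at h1'
    exact WithBot.not_coe_le_bot _ h1'
  obtain ⟨y, hy⟩ := WithBot.ne_bot_iff_exists.1 hne
  rw [← hy] at h1' h2'
  exact ⟨y, hy.symm, WithBot.coe_le_coe.1 h1', WithBot.coe_le_coe.1 h2'⟩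

end Pool.Agent.CG
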